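import Pool.Agent.Helper27.HZ.Stm
import Pool.Agent.Helper649.ZonoA

/-!
# Positivity of averages over real Gaussian variables
-/

set_option autoImplicit false
set_option linter.unusedSectionVars false

open scoped BigOperators
open MvPolynomial

namespace Pool.Agent.Helper27.HZ

open Pool.Agent.Helper27.HY (mom mom_succ)
open MeasureTheory ProbabilityTheory

/-- the moments of the Gaussian distribution -/
theorem int_mom (k : ℕ) : ∫ x : ℝ, ((x : ℂ)) ^ k ∂(gaussianReal 0 1) = mom k := by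
  have h0 : ∀ k : ℕ, ∫ x : ℝ, ((x : ℂ)) ^ k ∂(gaussianReal 0 1) =
      ((∫ x : ℝ, x ^ k ∂(gaussianReal 0 1) : ℝ) : ℂ) := by
    intro k
    rw [← integral_complex_ofReal]
    push_cast
    rfl
  rw [h0]
  induction k using Nat.twoStepInduction with
  | zero => simp [mom]
  | one =>
    have : ∫ x : ℝ, x ^ 1 ∂(gaussianReal 0 1) = 0 := by
      simp only [pow_one]
      exact integral_id_gaussianReal
    rw [this]
    simp [mom]
  | more k ih _ =>
    have h := Pool.Agent.Helper649.Zono.stein (Polynomial.X ^ (k + 1))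
    have e1 : ∀ x : ℝ, x * (Polynomial.X ^ (k + 1) : Polynomial ℝ).eval x = x ^ (k + 2) := by
      intro x
      rw [Polynomial.eval_pow, Polynomial.eval_X]
      ring
    have e2 : ∀ x : ℝ, (Polynomial.derivative (Polynomial.X ^ (k + 1) : Polynomial ℝ)).eval x =
        (k + 1) * x ^ k := by
      intro x
      rw [Polynomial.derivative_X_pow]
      simp
    simp only [e1, e2] at h
    rw [h, integral_const_mul]
    push_cast
    rw [ih]
    simp [mom]

theorem int_pow (k : ℕ) : Integrable (fun x : ℝ => (x : ℂ) ^ k) (gaussianReal 0 1) := by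
  have h := (Pool.Agent.Helper649.Zono.poly_integrable_pow k 1).ofReal (𝕜 := ℂ)
  refine h.congr (Filter.Eventually.of_forall fun x => ?_)
  simp

section
variable {ι : Type} [Fintype ι] [DecidableEq ι] {q : ℕ}

/-- evaluation of the first variables -/
noncomputable def ev (t : Fin q → ℝ) : S (Fin q ⊕ ι) →ₐ[ℂ] S ι :=
  aeval (Sum.elim (fun j => C (t j : ℂ)) X)

/-- partial expectation -/
noncomputable def Ph (t : Fin q → ℝ) (P : S (Fin q ⊕ ι)) : ℂ := E (ev t P)

theorem Ph_monomial (t : Fin q → ℝ) (d : Fin q ⊕ ι →₀ ℕ) (c : ℂ) :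
    Ph t (monomial d c : S (Fin q ⊕ ι)) =
      (c * ∏ a, mom (d (Sum.inr a))) * ∏ j, (t j : ℂ) ^ d (Sum.inl j) := by
  unfold Ph ev
  rw [aeval_monomial, Finsupp.prod_fintype _ _ (fun _ => pow_zero _), Fintype.prod_sum_type]
  simp only [Sum.elim_inl, Sum.elim_inr]
  have h1 : (∏ j, (C (t j : ℂ) : S ι) ^ d (Sum.inl j)) = C (∏ j, (t j : ℂ) ^ d (Sum.inl j)) := by
    rw [map_prod]
    exact Finset.prod_congr rfl fun j _ => (map_pow C _ _).symm
  set e : ι →₀ ℕ := Finsupp.equivFunOnFinite.symm fun a => d (Sum.inr a) with he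
  have h2 : (∏ a, (X a : S ι) ^ d (Sum.inr a)) = monomial e 1 := by
    rw [monomial_eq, C_1, one_mul, Finsupp.prod_fintype _ _ (fun _ => pow_zero _)]
    rfl
  rw [h1, h2, algebraMap_eq, E_C_mul, E_C_mul, E_monomial, one_mul]
  have h3 : ∏ a, mom (e a) = ∏ a, mom (d (Sum.inr a)) := rfl
  rw [h3]
  ring

theorem Ph_add (t : Fin q → ℝ) (P Q : S (Fin q ⊕ ι)) : Ph t (P + Q) = Ph t P + Ph t Q := by
  unfold Ph
  rw [map_add, map_add]

/-- the law of the first variables -/
noncomputable def law (q : ℕ) : Measure (Fin q → ℝ) := Measure.pi fun _ => gaussianReal 0 1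

theorem Ph_int (P : S (Fin q ⊕ ι)) :
    Integrable (fun t => Ph t P) (law q) ∧ ∫ t, Ph t P ∂(law q) = E P := by
  induction P using MvPolynomial.induction_on' with
  | monomial d c =>
    have hI : Integrable (fun t : Fin q → ℝ => ∏ j, (t j : ℂ) ^ d (Sum.inl j)) (law q) :=
      Integrable.fintype_prod (f := fun (j : Fin q) (x : ℝ) => (x : ℂ) ^ d (Sum.inl j))
        fun j => int_pow _
    simp only [Ph_monomial]
    refine ⟨hI.const_mul _, ?_⟩
    rw [integral_const_mul]
    have h1 : ∫ t : Fin q → ℝ, ∏ j, (t j : ℂ) ^ d (Sum.inl j) ∂(law q) =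
        ∏ j, mom (d (Sum.inl j)) := by
      have h2 := integral_fintype_prod_eq_prod (𝕜 := ℂ) (μ := fun _ : Fin q => gaussianReal 0 1)
        (fun (j : Fin q) (x : ℝ) => (x : ℂ) ^ d (Sum.inl j))
      simp only [int_mom] at h2
      exact h2
    rw [h1, E_monomial, Fintype.prod_sum_type]
    ring
  | add P Q hP hQ =>
    simp only [Ph_add]
    refine ⟨hP.1.add hQ.1, ?_⟩
    rw [integral_add hP.1 hQ.1, hP.2, hQ.2, map_add]

theorem E_nonneg (P : S (Fin q ⊕ ι)) (c : ℝ) (h : ∀ t, 0 ≤ c * (Ph t P).re) :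
    0 ≤ c * (E P).re := by
  obtain ⟨h1, h2⟩ := Ph_int P
  have h3 : ∫ t, c * (Ph t P).re ∂(law q) = c * (E P).re := by
    rw [integral_const_mul, ← h2]
    congr 1
    exact integral_re h1
  rw [← h3]
  exact integral_nonneg h

end

theorem avg : AvgStm := by
  intro J _ _ ι _ _ q M N c h
  refine E_nonneg _ c fun t => ?_
  have h1 : Ph t (GG (Sum.elim N M)).det = f M (∑ j, (t j : ℂ) • N j) := by
    unfold Ph
    rw [f_eq, AlgHom.map_det]
    congr 2
    ext1 i j
    have e1 : ∀ z : ℂ, ev (ι := ι) t (C z) = C z := fun z => by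
      unfold ev
      rw [aeval_C, algebraMap_eq]
    have e2 : ∀ k : Fin q, ev (ι := ι) t (X (Sum.inl k)) = C (t k : ℂ) := fun k => by
      unfold ev
      rw [aeval_X, Sum.elim_inl]
    have e3 : ∀ a : ι, ev (q := q) t (X (Sum.inr a)) = X a := fun a => by
      unfold ev
      rw [aeval_X, Sum.elim_inr]
    simp only [AlgHom.mapMatrix_apply, Matrix.map_apply, MM, GG, Matrix.add_apply, map_add, map_sum,
      map_mul, Fintype.sum_sum_type, Sum.elim_inl, Sum.elim_inr, e1, e2, e3,
      Matrix.sum_apply, Matrix.smul_apply, smul_eq_mul]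
    congr 1
    exact Finset.sum_congr rfl fun k _ => mul_comm (C (N k i j) : S ι) _
  rw [h1]
  exact h t

end Pool.Agent.Helper27.HZ
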