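import Pool.Agent.Helper27.HY.Gl

/-!
# Gaussian functionals of determinants: general version
-/

set_option autoImplicit false
set_option linter.unusedSectionVars false

open scoped BigOperators
open MvPolynomial

namespace Pool.Agent.Helper27.HZ

open Pool.Agent.Helper27.HY (mom mom_succ d1 d2 d1_add d1_smul d1_sum d1_self der_det der_d1
  d2_add_right d2_smul_right d2_symm d2_rank1 map_d1 map_d2 d1_zero' d1_single)

/-- polynomials in the variables `ι` -/
abbrev S (ι : Type) : Type := MvPolynomial ι ℂ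

section
variable {ι : Type} [Fintype ι] [DecidableEq ι]

/-- the expectation -/
noncomputable def E : S ι →ₗ[ℂ] ℂ :=
  (basisMonomials ι ℂ).constr ℂ fun d => ∏ a, mom (d a)

theorem E_monomial (d : ι →₀ ℕ) (c : ℂ) :
    E (monomial d c) = c * ∏ a, mom (d a) := by
  have h : (monomial d c : S ι) = c • (basisMonomials ι ℂ) d := by
    rw [coe_basisMonomials, smul_monomial, smul_eq_mul, mul_one]
  rw [h, map_smul, E, Module.Basis.constr_basis, smul_eq_mul]

theorem E_C_mul (c : ℂ) (q : S ι) : E (C c * q) = c * E q := by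
  rw [← smul_eq_C_mul, map_smul, smul_eq_mul]

theorem E_one : E (1 : S ι) = 1 := by
  have h : (1 : S ι) = monomial 0 1 := rfl
  rw [h, E_monomial]
  simp [mom]

theorem E_C (c : ℂ) : E (C c : S ι) = c := by
  have := E_C_mul (ι := ι) c 1
  rwa [mul_one, E_one, mul_one] at this

/-- Integration by parts. -/
theorem stein (a : ι) (q : S ι) : E (X a * q) = E (pderiv a q) := by
  induction q using MvPolynomial.induction_on' with
  | monomial d c =>
    set d1 : ι →₀ ℕ := Finsupp.single a 1 + d with hd1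
    set d2 : ι →₀ ℕ := d - Finsupp.single a 1 with hd2
    have e1 : (X a : S ι) * monomial d c = monomial d1 c := by
      rw [X, monomial_mul, one_mul]
    rw [e1, pderiv_monomial, E_monomial, E_monomial]
    rw [← Finset.mul_prod_erase Finset.univ (fun b => mom (d1 b)) (Finset.mem_univ a),
      ← Finset.mul_prod_erase Finset.univ (fun b => mom (d2 b)) (Finset.mem_univ a)]
    have h1 : ∏ b ∈ Finset.univ.erase a, mom (d1 b) =
        ∏ b ∈ Finset.univ.erase a, mom (d2 b) := by
      refine Finset.prod_congr rfl fun b hb => ?_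
      have hne : a ≠ b := (Finset.ne_of_mem_erase hb).symm
      simp [hd1, hd2, Finsupp.single_apply, hne]
    rw [h1]
    have h3 : d1 a = d a + 1 := by
      simp [hd1, add_comm]
    have h4 : d2 a = d a - 1 := by simp [hd2]
    rw [h3, h4, mom_succ]
    ring
  | add p q hp hq => rw [mul_add, map_add, map_add, hp, hq, map_add]

end

section
variable {J : Type} [Fintype J] [DecidableEq J] {ι : Type} [Fintype ι] [DecidableEq ι]

/-- the Gaussian matrix `∑ X_a M_a` -/
noncomputable def GG (M : ι → Matrix J J ℂ) : Matrix J J (S ι) :=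
  fun i j => ∑ a, C (M a i j) * X a

/-- the matrix `Y + GG` -/
noncomputable def MM (M : ι → Matrix J J ℂ) (Y : Matrix J J ℂ) : Matrix J J (S ι) :=
  Y.map C + GG M

/-- the expectation of the determinant of `Y + ∑ X_a M_a` -/
noncomputable def f (M : ι → Matrix J J ℂ) (Y : Matrix J J ℂ) : ℂ := E (MM M Y).det

/-- first derivative -/
noncomputable def D1 (M : ι → Matrix J J ℂ) (Y H : Matrix J J ℂ) : ℂ :=
  E (d1 (MM M Y) (H.map C))

/-- second derivative -/
noncomputable def D2 (M : ι → Matrix J J ℂ) (Y H K : Matrix J J ℂ) : ℂ :=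
  E (d2 (MM M Y) (H.map C) (K.map C))

variable (M : ι → Matrix J J ℂ)

theorem f_eq (Y : Matrix J J ℂ) : f M Y = E (MM M Y).det := rfl

/-! ### linearity -/

theorem D1_add (Y H K : Matrix J J ℂ) : D1 M Y (H + K) = D1 M Y H + D1 M Y K := by
  unfold D1
  rw [← map_add, ← d1_add]
  congr 2
  ext i j
  simp

theorem D1_smul (Y H : Matrix J J ℂ) (c : ℂ) : D1 M Y (c • H) = c * D1 M Y H := by
  unfold D1
  rw [← E_C_mul, ← d1_smul]
  congr 2
  ext i j
  simp

theorem D1_sum {κ : Type*} (s : Finset κ) (Y : Matrix J J ℂ) (H : κ → Matrix J J ℂ) :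
    D1 M Y (∑ a ∈ s, H a) = ∑ a ∈ s, D1 M Y (H a) := by
  classical
  induction s using Finset.induction_on with
  | empty =>
    have := D1_smul M Y 0 0
    simpa using this
  | insert a s ha ih => rw [Finset.sum_insert ha, Finset.sum_insert ha, D1_add, ih]

theorem D2_symm (Y H K : Matrix J J ℂ) : D2 M Y H K = D2 M Y K H := by
  unfold D2
  rw [d2_symm]

theorem D2_add_right (Y H K L : Matrix J J ℂ) :
    D2 M Y H (K + L) = D2 M Y H K + D2 M Y H L := by
  unfold D2
  rw [← map_add, ← d2_add_right]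
  congr 2
  ext i j
  simp

theorem D2_smul_right (Y H K : Matrix J J ℂ) (c : ℂ) :
    D2 M Y H (c • K) = c * D2 M Y H K := by
  unfold D2
  rw [← E_C_mul, ← d2_smul_right]
  congr 2
  ext i j
  simp

theorem D2_sum_right {κ : Type*} (s : Finset κ) (Y H : Matrix J J ℂ) (K : κ → Matrix J J ℂ) :
    D2 M Y H (∑ a ∈ s, K a) = ∑ a ∈ s, D2 M Y H (K a) := by
  classical
  induction s using Finset.induction_on with
  | empty =>
    have := D2_smul_right M Y H 0 0
    simpa using this
  | insert a s ha ih => rw [Finset.sum_insert ha, Finset.sum_insert ha, D2_add_right, ih]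

theorem D2_add_left (Y H K L : Matrix J J ℂ) :
    D2 M Y (H + K) L = D2 M Y H L + D2 M Y K L := by
  rw [D2_symm, D2_add_right, D2_symm M Y L H, D2_symm M Y L K]

theorem D2_smul_left (Y H K : Matrix J J ℂ) (c : ℂ) :
    D2 M Y (c • H) K = c * D2 M Y H K := by
  rw [D2_symm, D2_smul_right, D2_symm]

theorem D2_sum_left {κ : Type*} (s : Finset κ) (Y L : Matrix J J ℂ) (K : κ → Matrix J J ℂ) :
    D2 M Y (∑ a ∈ s, K a) L = ∑ a ∈ s, D2 M Y (K a) L := by
  rw [D2_symm, D2_sum_right]
  exact Finset.sum_congr rfl fun a _ => D2_symm M Y L (K a)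

/-! ### the polynomial along a line -/

/-- the determinant along a line, over the polynomials in the Gaussian variables -/
noncomputable def QQ (Y H : Matrix J J ℂ) : Polynomial (S ι) :=
  (((Polynomial.X : Polynomial (S ι)) • (H.map C : Matrix J J (S ι)).map Polynomial.C +
    (MM M Y).map Polynomial.C : Matrix J J (Polynomial (S ι)))).det

/-- the matrix in the definition of `QQ` -/
noncomputable def Mx (Y H : Matrix J J ℂ) : Matrix J J (Polynomial (S ι)) :=
  (Polynomial.X : Polynomial (S ι)) • (H.map C : Matrix J J (S ι)).map Polynomial.C +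
    (MM M Y).map Polynomial.C

theorem QQ_deg (Y H : Matrix J J ℂ) : (QQ M Y H).natDegree < Fintype.card J + 1 :=
  Nat.lt_succ_of_le (Polynomial.natDegree_det_X_add_C_le _ _)

theorem Mx_eval (Y H : Matrix J J ℂ) (t : ℂ) :
    (Mx M Y H).map (Polynomial.evalRingHom (C t : S ι)) = MM M (Y + t • H) := by
  ext1 i j
  simp [Mx, MM]
  ring

theorem QQ_eval (Y H : Matrix J J ℂ) (t : ℂ) :
    (QQ M Y H).eval (C t : S ι) = (MM M (Y + t • H)).det := by
  have h := RingHom.map_det (Polynomial.evalRingHom (C t : S ι)) (Mx M Y H)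
  rw [RingHom.mapMatrix_apply, Mx_eval] at h
  exact h

/-- the polynomial `t ↦ f (Y + t H)` -/
noncomputable def PP (Y H : Matrix J J ℂ) : Polynomial ℂ :=
  ∑ k ∈ Finset.range (Fintype.card J + 1), Polynomial.monomial k (E ((QQ M Y H).coeff k))

theorem PP_eval (Y H : Matrix J J ℂ) (t : ℂ) : (PP M Y H).eval t = f M (Y + t • H) := by
  rw [f_eq, ← QQ_eval, Polynomial.eval_eq_sum_range' (QQ_deg M Y H), map_sum]
  unfold PP
  rw [Polynomial.eval_finsetSum]
  refine Finset.sum_congr rfl fun k _ => ?_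
  rw [Polynomial.eval_monomial, ← C_pow, mul_comm _ (C (t ^ k)), E_C_mul]
  ring

theorem PP_coeff (Y H : Matrix J J ℂ) (k : ℕ) :
    (PP M Y H).coeff k = E ((QQ M Y H).coeff k) := by
  unfold PP
  rw [Polynomial.finsetSum_coeff]
  simp only [Polynomial.coeff_monomial]
  by_cases hk : k < Fintype.card J + 1
  · rw [Finset.sum_eq_single k]
    · rw [if_pos rfl]
    · intro b _ hb
      rw [if_neg hb]
    · intro h
      exact absurd (Finset.mem_range.2 hk) h
  · rw [Polynomial.coeff_eq_zero_of_natDegree_lt (lt_of_lt_of_le (QQ_deg M Y H) (not_lt.1 hk)),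
      map_zero]
    refine Finset.sum_eq_zero fun b hb => ?_
    rw [if_neg]
    rintro rfl
    exact hk (Finset.mem_range.1 hb)

theorem Mx_der (Y H : Matrix J J ℂ) :
    (Mx M Y H).map (Polynomial.derivative' (R := S ι)) = (H.map C : Matrix J J (S ι)).map Polynomial.C := by
  ext1 i j
  simp [Mx]

theorem Hc_der (H : Matrix J J ℂ) :
    ((H.map C : Matrix J J (S ι)).map Polynomial.C).map (Polynomial.derivative' (R := S ι)) = 0 := by
  ext1 i j
  simp

theorem QQ_der (Y H : Matrix J J ℂ) : Polynomial.derivative (QQ M Y H) =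
    d1 (Mx M Y H) ((H.map C : Matrix J J (S ι)).map Polynomial.C) := by
  have h := der_det (Polynomial.derivative' (R := S ι)) (Mx M Y H)
  rw [Mx_der] at h
  exact h

theorem QQ_der2 (Y H : Matrix J J ℂ) : Polynomial.derivative (Polynomial.derivative (QQ M Y H)) =
    d2 (Mx M Y H) ((H.map C : Matrix J J (S ι)).map Polynomial.C)
      ((H.map C : Matrix J J (S ι)).map Polynomial.C) := by
  rw [QQ_der]
  have h := der_d1 (Polynomial.derivative' (R := S ι)) (Mx M Y H)
    ((H.map C : Matrix J J (S ι)).map Polynomial.C)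
  rw [Mx_der, Hc_der, d1_zero', add_zero] at h
  exact h

theorem Mx_eval0 (Y H : Matrix J J ℂ) :
    (Mx M Y H).map (Polynomial.evalRingHom (0 : S ι)) = MM M Y := by
  ext1 i j
  simp [Mx]

theorem Hc_eval0 (H : Matrix J J ℂ) :
    ((H.map C : Matrix J J (S ι)).map Polynomial.C).map (Polynomial.evalRingHom (0 : S ι)) =
      H.map C := by
  ext1 i j
  simp

theorem PP0 (Y H : Matrix J J ℂ) : (PP M Y H).coeff 0 = f M Y := by
  rw [Polynomial.coeff_zero_eq_eval_zero, PP_eval, zero_smul, add_zero]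

theorem PP1 (Y H : Matrix J J ℂ) : (PP M Y H).coeff 1 = D1 M Y H := by
  rw [PP_coeff]
  unfold D1
  congr 1
  have h1 : (Polynomial.derivative (QQ M Y H)).coeff 0 = (QQ M Y H).coeff 1 := by
    rw [Polynomial.coeff_derivative]
    simp
  rw [← h1, Polynomial.coeff_zero_eq_eval_zero, QQ_der]
  have h2 := map_d1 (Polynomial.evalRingHom (0 : S ι)) (Mx M Y H)
    ((H.map C : Matrix J J (S ι)).map Polynomial.C)
  rw [Mx_eval0, Hc_eval0] at h2
  exact h2

theorem PP2 (Y H : Matrix J J ℂ) : 2 * (PP M Y H).coeff 2 = D2 M Y H H := by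
  rw [PP_coeff]
  unfold D2
  have h1 : (Polynomial.derivative (Polynomial.derivative (QQ M Y H))).coeff 0 =
      C 2 * (QQ M Y H).coeff 2 := by
    have h2 : (C 2 : S ι) = 2 := map_ofNat C 2
    rw [Polynomial.coeff_derivative, Polynomial.coeff_derivative, h2]
    simp
    ring
  have h2 := map_d2 (Polynomial.evalRingHom (0 : S ι)) (Mx M Y H)
    ((H.map C : Matrix J J (S ι)).map Polynomial.C) ((H.map C : Matrix J J (S ι)).map Polynomial.C)
  rw [Mx_eval0, Hc_eval0] at h2
  rw [← E_C_mul, ← h1, Polynomial.coeff_zero_eq_eval_zero, QQ_der2, ← h2]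
  rfl

/-- The functional is affine in rank one directions. -/
theorem f_rank1 (Y : Matrix J J ℂ) (u v : J → ℂ) (t : ℂ) :
    f M (Y + t • Matrix.vecMulVec u v) = f M Y + t * D1 M Y (Matrix.vecMulVec u v) := by
  have hz : Polynomial.derivative (Polynomial.derivative (QQ M Y (Matrix.vecMulVec u v))) =
      0 := by
    rw [QQ_der2]
    have h := d2_rank1 (Mx M Y (Matrix.vecMulVec u v))
      (fun i => (Polynomial.C (C (u i)) : Polynomial (S ι)))
      (fun i => (Polynomial.C (C (v i)) : Polynomial (S ι))) 1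
    rw [one_smul] at h
    have e1 : ((Matrix.vecMulVec u v).map C : Matrix J J (S ι)).map Polynomial.C =
        Matrix.vecMulVec (fun i => (Polynomial.C (C (u i)) : Polynomial (S ι)))
          (fun i => (Polynomial.C (C (v i)) : Polynomial (S ι))) := by
      ext1 i j
      simp [Matrix.vecMulVec_apply]
    rw [e1]
    exact h
  have hc : ∀ k, (PP M Y (Matrix.vecMulVec u v)).coeff (k + 2) = 0 := by
    intro k
    rw [PP_coeff]
    have h1 : (Polynomial.derivative (Polynomial.derivative
        (QQ M Y (Matrix.vecMulVec u v)))).coeff k = 0 := by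
      rw [hz, Polynomial.coeff_zero]
    rw [Polynomial.coeff_derivative, Polynomial.coeff_derivative] at h1
    have h2 : (QQ M Y (Matrix.vecMulVec u v)).coeff (k + 2) = 0 := by
      rcases mul_eq_zero.1 h1 with h3 | h3
      · rcases mul_eq_zero.1 h3 with h4 | h4
        · exact h4
        · exfalso
          have : ((k + 1 : ℕ) : S ι) + 1 ≠ 0 := by exact_mod_cast Nat.succ_ne_zero (k + 1)
          exact this h4
      · exfalso
        have : (k : S ι) + 1 ≠ 0 := by exact_mod_cast Nat.succ_ne_zero k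
        exact this h3
    rw [h2, map_zero]
  rw [← PP_eval, ← PP0 M Y (Matrix.vecMulVec u v), ← PP1 M Y (Matrix.vecMulVec u v)]
  have hd : (PP M Y (Matrix.vecMulVec u v)).natDegree < 2 := by
    rw [Nat.lt_succ_iff, Polynomial.natDegree_le_iff_coeff_eq_zero]
    intro N hN
    obtain ⟨k, rfl⟩ : ∃ k, N = k + 2 := ⟨N - 2, by omega⟩
    exact hc k
  rw [Polynomial.eval_eq_sum_range' hd]
  simp [Finset.sum_range_succ]
  ring

/-! ### the Euler relation -/

theorem GG_eq : GG M = ∑ a, (X a : S ι) • ((M a).map C : Matrix J J (S ι)) := by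
  ext1 i j
  rw [Matrix.sum_apply]
  simp only [GG, Matrix.smul_apply, Matrix.map_apply, smul_eq_mul]
  exact Finset.sum_congr rfl fun k _ => by ring

theorem MM_pderiv (Y : Matrix J J ℂ) (a : ι) :
    (MM M Y).map (pderiv a : Derivation ℂ (S ι) (S ι)) = ((M a).map C : Matrix J J (S ι)) := by
  ext1 i j
  simp only [MM, GG, Matrix.add_apply, Matrix.map_apply,
    map_add, map_sum, Derivation.leibniz, pderiv_C, pderiv_X]
  simp [Pi.single_apply]

theorem const_pderiv (H : Matrix J J ℂ) (a : ι) :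
    (H.map C : Matrix J J (S ι)).map (pderiv a : Derivation ℂ (S ι) (S ι)) = 0 := by
  ext1 i j
  simp [pderiv_C]

/-- the Euler relation -/
theorem euler (Y : Matrix J J ℂ) :
    (Fintype.card J : ℂ) * f M Y = D1 M Y Y + ∑ a, D2 M Y (M a) (M a) := by
  have h0 : (Fintype.card J : ℂ) * f M Y = E (d1 (MM M Y) (MM M Y)) := by
    rw [d1_self, f_eq, ← E_C_mul]
    congr 2
  have h1 : d1 (MM M Y) (MM M Y) = d1 (MM M Y) (Y.map C) +
      ∑ a, X a * d1 (MM M Y) ((M a).map C) := by
    conv_lhs => rw [show MM M Y = Y.map C + GG M from rfl]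
    rw [d1_add, show (Y.map C + GG M : Matrix J J (S ι)) = MM M Y from rfl, GG_eq, d1_sum]
    simp only [d1_smul]
  have h3 : ∀ a, E (X a * d1 (MM M Y) ((M a).map C)) = D2 M Y (M a) (M a) := by
    intro a
    rw [stein, der_d1, MM_pderiv, const_pderiv, d1_zero', add_zero]
    rfl
  rw [h0, h1, map_add, map_sum]
  simp only [h3]
  rfl

/-! ### changes of variables -/

theorem MM_cong (L T : Matrix J J ℂ) (Y : Matrix J J ℂ) :
    MM (fun a => L * M a * T) (L * Y * T) =
      (L.map C : Matrix J J (S ι)) * MM M Y * T.map C := by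
  have hC : ∀ P Q : Matrix J J ℂ, ((P * Q).map C : Matrix J J (S ι)) = P.map C * Q.map C :=
    fun P Q => Matrix.map_mul
  unfold MM
  rw [GG_eq, GG_eq, hC, hC]
  simp only [hC]
  rw [Matrix.mul_add, Matrix.add_mul, Matrix.mul_sum, Matrix.sum_mul]
  congr 1
  exact Finset.sum_congr rfl fun k _ => by rw [Matrix.mul_smul, Matrix.smul_mul]

theorem f_cong (L T : Matrix J J ℂ) (Y : Matrix J J ℂ) :
    f (fun a => L * M a * T) (L * Y * T) = L.det * T.det * f M Y := by
  rw [f_eq, f_eq, MM_cong, Matrix.det_mul, Matrix.det_mul]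
  have h1 : ∀ P : Matrix J J ℂ, (P.map C : Matrix J J (S ι)).det = C P.det := by
    intro P
    exact (RingHom.map_det (C : ℂ →+* S ι) P).symm
  rw [h1, h1, mul_comm _ (C T.det), ← mul_assoc, ← C_mul, E_C_mul]
  ring

theorem D1_cong (L T : Matrix J J ℂ) (Y : Matrix J J ℂ) (u v : J → ℂ) :
    D1 (fun a => L * M a * T) (L * Y * T) (Matrix.vecMulVec (L.mulVec u) (Matrix.vecMul v T)) =
      L.det * T.det * D1 M Y (Matrix.vecMulVec u v) := by
  have h1 := f_rank1 M Y u v 1
  have h2 := f_rank1 (fun a => L * M a * T) (L * Y * T) (L.mulVec u) (Matrix.vecMul v T) 1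
  have h3 : L * Y * T + (1 : ℂ) • Matrix.vecMulVec (L.mulVec u) (Matrix.vecMul v T) =
      L * (Y + (1 : ℂ) • Matrix.vecMulVec u v) * T := by
    rw [one_smul, one_smul, Matrix.mul_add, Matrix.add_mul]
    congr 1
    rw [Matrix.mul_vecMulVec, Matrix.vecMulVec_mul]
  rw [h3, f_cong, f_cong, h1] at h2
  linear_combination -h2

/-! ### minors -/

theorem D1_single {n : ℕ} (B : ι → Matrix (Fin (n + 1)) (Fin (n + 1)) ℂ)
    (Y : Matrix (Fin (n + 1)) (Fin (n + 1)) ℂ) :
    D1 B Y (Matrix.vecMulVec (Pi.single 0 1) (Pi.single 0 1)) =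
      f (fun k => (B k).submatrix Fin.succ Fin.succ) (Y.submatrix Fin.succ Fin.succ) := by
  unfold D1
  have h1 : ((Matrix.vecMulVec (Pi.single 0 1) (Pi.single 0 1) :
      Matrix (Fin (n + 1)) (Fin (n + 1)) ℂ).map C : Matrix _ _ (S ι)) =
      Matrix.vecMulVec (Pi.single 0 1) (Pi.single 0 1) := by
    ext1 i j
    simp only [Matrix.map_apply, Matrix.vecMulVec_apply, Pi.single_apply]
    split_ifs <;> simp
  rw [h1, d1_single]
  rfl

/-- the homogeneous form of the functional at diagonal matrices -/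
noncomputable def FF (α : J → ℂ) (β : J → ℝ) : ℂ :=
  E (Matrix.det (Matrix.of fun i j => C (if i = j then α i else 0) + C (β i : ℂ) * GG M i j))

theorem FF_eq (α : J → ℂ) (β : J → ℝ) (hβ : ∀ i, β i ≠ 0) :
    FF M α β = (∏ i, (β i : ℂ)) * f M (Matrix.diagonal fun i => α i / β i) := by
  unfold FF
  rw [f_eq]
  have h1 : (Matrix.of fun i j => C (if i = j then α i else 0) + C (β i : ℂ) * GG M i j) =
      Matrix.diagonal (fun i => (C (β i : ℂ) : S ι)) *
        MM M (Matrix.diagonal fun i => α i / β i) := by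
    ext1 i j
    rw [Matrix.diagonal_mul]
    simp only [Matrix.of_apply, MM, Matrix.add_apply, Matrix.map_apply, Matrix.diagonal_apply,
      mul_add]
    congr 1
    by_cases h : i = j
    · rw [if_pos h, if_pos h, ← C_mul]
      congr 1
      have : (β i : ℂ) ≠ 0 := by exact_mod_cast hβ i
      field_simp
    · rw [if_neg h, if_neg h]
      simp
  rw [h1, Matrix.det_mul, Matrix.det_diagonal, ← map_prod, E_C_mul]

theorem FF_succ {n : ℕ} (B : ι → Matrix (Fin (n + 1)) (Fin (n + 1)) ℂ) (α : Fin (n + 1) → ℂ)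
    (β : Fin (n + 1) → ℝ) (j : Fin (n + 1)) (hβ : β j = 0) :
    FF B α β = α j * FF (fun k => (B k).submatrix j.succAbove j.succAbove) (α ∘ j.succAbove)
      (β ∘ j.succAbove) := by
  unfold FF
  rw [Matrix.det_succ_row _ j, Finset.sum_eq_single j]
  · have h1 : ((-1 : S ι)) ^ ((j : ℕ) + (j : ℕ)) = 1 := by
      rw [← two_mul, pow_mul]
      simp
    rw [h1, one_mul]
    have h2 : (Matrix.of fun i j => C (if i = j then α i else 0) + C (β i : ℂ) * GG B i j) j j =
        C (α j) := by
      simp [hβ]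
    rw [h2, E_C_mul]
    congr 3
    ext1 a b
    simp only [Matrix.submatrix_apply, Matrix.of_apply, Function.comp]
    congr 2
    by_cases hab : a = b
    · simp [hab]
    · have : j.succAbove a ≠ j.succAbove b := fun h => hab (Fin.succAbove_right_injective h)
      simp [hab, this]
  · intro b _ hb
    have h2 : (Matrix.of fun i j => C (if i = j then α i else 0) + C (β i : ℂ) * GG B i j) j b =
        0 := by
      simp [hβ, Ne.symm hb]
    rw [h2]
    ring
  · simp

end

end Pool.Agent.Helper27.HZ
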