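import Pool.Agent.Helper27.HZ.Stm
import Pool.Agent.Helper27.HY.Alg
import Pool.Agent.Helper27.HY.Mat

/-!
# The extremal case
-/

set_option autoImplicit false
set_option linter.unusedSectionVars false

open scoped BigOperators
open MvPolynomial

namespace Pool.Agent.Helper27.HZ

open Pool.Agent.Helper27.HY (im_poly root_im lor)

variable {J : Type} [Fintype J] [DecidableEq J] {p r : ℕ}

/-! ### preliminaries -/

/-- rank one matrices -/
noncomputable def rk (e : J → ℂ) : Matrix J J ℂ := Matrix.vecMulVec e (star e)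

theorem rk_apply (e : J → ℂ) (i j : J) : rk e i j = e i * (starRingEnd ℂ) (e j) := by
  simp only [rk, Matrix.vecMulVec_apply, Pi.star_apply]
  rfl

theorem rk_herm (e : J → ℂ) : Hm (rk e) := by
  intro i j
  rw [rk_apply, rk_apply, map_mul, Complex.conj_conj]
  ring

theorem f_rk {ι : Type} [Fintype ι] [DecidableEq ι] (M : ι → Matrix J J ℂ) (Y : Matrix J J ℂ)
    (e : J → ℂ) (t : ℂ) : f M (Y + t • rk e) = f M Y + t * D1 M Y (rk e) :=
  f_rank1 M Y _ _ t

theorem hf_add (P Q : Matrix J J ℂ) (x : J → ℂ) : hf (P + Q) x = hf P x + hf Q x := by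
  simp only [hf, Matrix.add_apply, add_mul, Finset.sum_add_distrib]

theorem hf_smul (c : ℂ) (P : Matrix J J ℂ) (x : J → ℂ) : hf (c • P) x = c * hf P x := by
  simp only [hf, Matrix.smul_apply, smul_eq_mul, Finset.mul_sum]
  exact Finset.sum_congr rfl fun _ _ => Finset.sum_congr rfl fun _ _ => by ring

theorem hq_add (P Q : Matrix J J ℂ) (x : J → ℂ) : hq (P + Q) x = hq P x + hq Q x := by
  unfold hq
  rw [hf_add, Complex.add_re]

theorem hq_smul (c : ℝ) (P : Matrix J J ℂ) (x : J → ℂ) : hq ((c : ℂ) • P) x = c * hq P x := by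
  unfold hq
  rw [hf_smul, Complex.re_ofReal_mul]

theorem hq_sum {κ : Type*} (s : Finset κ) (P : κ → Matrix J J ℂ) (x : J → ℂ) :
    hq (∑ a ∈ s, P a) x = ∑ a ∈ s, hq (P a) x := by
  classical
  induction s using Finset.induction_on with
  | empty => simp [hq, hf]
  | insert a s ha ih => rw [Finset.sum_insert ha, Finset.sum_insert ha, hq_add, ih]

theorem hf_rk (e x : J → ℂ) :
    hf (rk e) x = ((Complex.normSq (∑ i, (starRingEnd ℂ) (x i) * e i) : ℝ) : ℂ) := by
  rw [← Complex.mul_conj, map_sum, Finset.sum_mul_sum]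
  unfold hf
  refine Finset.sum_congr rfl fun i _ => Finset.sum_congr rfl fun j _ => ?_
  rw [rk_apply, map_mul, Complex.conj_conj]
  ring

theorem hq_rk (e x : J → ℂ) :
    hq (rk e) x = Complex.normSq (∑ i, (starRingEnd ℂ) (x i) * e i) := by
  unfold hq
  rw [hf_rk, Complex.ofReal_re]

theorem hq_rk_nonneg (e x : J → ℂ) : 0 ≤ hq (rk e) x := by
  rw [hq_rk]
  exact Complex.normSq_nonneg _

theorem hf_herm {H : Matrix J J ℂ} (hH : Hm H) (x : J → ℂ) : hf H x = (hq H x : ℂ) := by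
  have h1 : (starRingEnd ℂ) (hf H x) = hf H x := by
    unfold hf
    rw [map_sum]
    simp only [map_sum, map_mul, Complex.conj_conj]
    rw [Finset.sum_comm]
    refine Finset.sum_congr rfl fun j _ => Finset.sum_congr rfl fun i _ => ?_
    rw [← hH i j]
    ring
  exact (Complex.conj_eq_iff_re.1 h1).symm

theorem hi_add_smul {H : Matrix J J ℂ} (hH : Hm H) (Y : Matrix J J ℂ) (t : ℂ) (x : J → ℂ) :
    hi (Y + t • H) x = hi Y x + t.im * hq H x := by
  unfold hi
  rw [hf_add, hf_smul, hf_herm hH, Complex.add_im, Complex.im_mul_ofReal]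

theorem hpr_smul (c : ℝ) (P N : Matrix J J ℂ) : hpr ((c : ℂ) • P) N = c * hpr P N := by
  unfold hpr
  rw [← Complex.re_ofReal_mul, Finset.mul_sum]
  congr 1
  refine Finset.sum_congr rfl fun i _ => ?_
  rw [Finset.mul_sum]
  exact Finset.sum_congr rfl fun j _ => by
    simp only [Matrix.smul_apply, smul_eq_mul]
    ring

theorem hpr_rk (e : J → ℂ) (N : Matrix J J ℂ) : hpr (rk e) N = hq N e := by
  have h1 : ∑ i, ∑ j, rk e i j * (starRingEnd ℂ) (N i j) = (starRingEnd ℂ) (hf N e) := by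
    unfold hf
    rw [map_sum]
    simp only [map_sum, map_mul, Complex.conj_conj, rk_apply]
    exact Finset.sum_congr rfl fun _ _ => Finset.sum_congr rfl fun _ _ => by ring
  unfold hpr hq
  rw [h1, Complex.conj_re]

theorem hpr_dec {M N : Matrix J J ℂ} {m : ℕ} {a : Fin m → J → ℂ}
    (h : ∀ i j, N i j = ∑ k, a k i * (starRingEnd ℂ) (a k j)) : hpr M N = ∑ k, hq M (a k) := by
  unfold hpr hq hf
  rw [← Complex.re_sum]
  congr 1
  simp only [h, map_sum, map_mul, Complex.conj_conj, Finset.mul_sum]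
  have e : ∀ i, ∑ j, ∑ k, M i j * ((starRingEnd ℂ) (a k i) * a k j) =
      ∑ k, ∑ j, M i j * ((starRingEnd ℂ) (a k i) * a k j) := fun i => Finset.sum_comm
  simp only [e]
  exact Finset.sum_comm

theorem nn_nonneg (x : J → ℂ) : 0 ≤ nn x := Finset.sum_nonneg fun _ _ => Complex.normSq_nonneg _

theorem nn_pos {x : J → ℂ} (hx : x ≠ 0) : 0 < nn x := by
  obtain ⟨i, hi⟩ := Function.ne_iff.1 hx
  exact Finset.sum_pos' (fun _ _ => Complex.normSq_nonneg _)
    ⟨i, Finset.mem_univ i, Complex.normSq_pos.2 hi⟩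

theorem hf_one (x : J → ℂ) : hf (1 : Matrix J J ℂ) x = (nn x : ℂ) := by
  unfold hf nn
  push_cast
  refine Finset.sum_congr rfl fun i _ => ?_
  rw [Finset.sum_eq_single i]
  · rw [Matrix.one_apply_eq, one_mul, mul_comm, Complex.mul_conj]
  · intro j _ hj
    rw [Matrix.one_apply_ne (Ne.symm hj), zero_mul]
  · intro h
    exact absurd (Finset.mem_univ i) h

theorem one_herm : Hm (1 : Matrix J J ℂ) := by
  intro i j
  by_cases h : i = j
  · subst h
    simp
  · rw [Matrix.one_apply_ne h, Matrix.one_apply_ne (Ne.symm h), map_zero]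

theorem diag_herm (x : J → ℝ) : Hm (Matrix.diagonal fun j => (x j : ℂ)) := by
  intro i j
  by_cases h : i = j
  · subst h
    simp
  · rw [Matrix.diagonal_apply_ne _ h, Matrix.diagonal_apply_ne _ (Ne.symm h), map_zero]

theorem herm_comb {r : ℕ} {A0 : Matrix J J ℂ} {A : Fin r → Matrix J J ℂ} (h0 : Hm A0)
    (h : ∀ k, Hm (A k)) (c0 : ℝ) (c : Fin r → ℝ) :
    Hm ((c0 : ℂ) • A0 + ∑ k, (c k : ℂ) • A k) := by
  intro i j
  simp only [Matrix.add_apply, Matrix.smul_apply, Matrix.sum_apply, smul_eq_mul, map_add, map_mul,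
    map_sum, Complex.conj_ofReal]
  rw [h0 i j]
  congr 1
  exact Finset.sum_congr rfl fun k _ => by rw [h k i j]

theorem zero_of_hq (hpsd : PsdStm J) {H : Matrix J J ℂ} (hH : Hm H) (h : ∀ x, hq H x = 0) :
    H = 0 := by
  obtain ⟨m, a, ha⟩ := hpsd H hH fun x => (h x).symm.le
  have hM : H = ∑ k, rk (a k) := by
    ext1 i j
    rw [ha, Matrix.sum_apply]
    simp only [rk_apply]
  have hz : ∀ k, a k = 0 := by
    intro k
    by_contra hk
    have h1 := h (a k)
    rw [hM, hq_sum] at h1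
    have h2 := (Finset.sum_eq_zero_iff_of_nonneg fun l _ => hq_rk_nonneg (a l) (a k)).1 h1 k
      (Finset.mem_univ k)
    rw [hq_rk, Complex.normSq_eq_zero] at h2
    have h3 : ∑ i, (starRingEnd ℂ) (a k i) * a k i = (nn (a k) : ℂ) := by
      unfold nn
      push_cast
      exact Finset.sum_congr rfl fun i _ => by rw [mul_comm, Complex.mul_conj]
    rw [h3] at h2
    have h4 : nn (a k) = 0 := by exact_mod_cast h2
    exact absurd h4 (nn_pos hk).ne'
  rw [hM]
  refine Finset.sum_eq_zero fun k _ => ?_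
  ext1 i j
  rw [rk_apply, hz k]
  simp

/-- the point -/
noncomputable def Zs (x : J → ℝ) : Matrix J J ℂ := Matrix.diagonal fun j => (x j : ℂ) + Complex.I

theorem Zs_eq (x : J → ℝ) :
    Zs x = (Matrix.diagonal fun j => (x j : ℂ)) + Complex.I • (1 : Matrix J J ℂ) := by
  ext1 i j
  by_cases h : i = j
  · subst h
    simp [Zs]
  · simp [Zs, h]

theorem hi_Zs (x : J → ℝ) (y : J → ℂ) : hi (Zs x) y = nn y := by
  rw [Zs_eq, hi_add_smul one_herm]
  have h1 : hi (Matrix.diagonal fun j => (x j : ℂ)) y = 0 := by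
    unfold hi
    rw [hf_herm (diag_herm x), Complex.ofReal_im]
  have h2 : hq (1 : Matrix J J ℂ) y = nn y := by
    unfold hq
    rw [hf_one, Complex.ofReal_re]
  rw [h1, h2]
  simp

/-! ### the context -/

/-- the situation at a zero of minimal trace -/
structure Ctx (θ : ℝ) (A0 : Fin p → Matrix J J ℂ) (A : Fin p → Fin r → Matrix J J ℂ) (x : J → ℝ)
    (e0 : J → ℂ) : Prop where
  th0 : 0 ≤ θ
  th1 : θ < 1
  ad : ∀ s, AdH θ (A0 s) (A s)
  mn : ∀ Y Q : Matrix J J ℂ, Hm Q → (∀ x, 0 ≤ hq Q x) → (∀ x, nn x + hq Q x ≤ hi Y x) →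
    0 < ∑ s, hpr Q (A0 s) → f (Mk A0 A) Y ≠ 0
  nd : ∀ Y : Matrix J J ℂ, (∀ x, x ≠ 0 → 0 < hi Y x) → ∀ e : J → ℂ, e ≠ 0 →
    D1 (Mk A0 A) Y (rk e) ≠ 0
  zero : f (Mk A0 A) (Zs x) = 0
  pe : 0 < ∑ s, hq (A0 s) e0
  psd : PsdStm J

section
variable {θ : ℝ} {A0 : Fin p → Matrix J J ℂ} {A : Fin p → Fin r → Matrix J J ℂ} {x : J → ℝ}
  {e0 : J → ℂ}

theorem Ctx.e0_ne (c : Ctx θ A0 A x e0) : e0 ≠ 0 := by
  rintro rfl
  have := c.pe
  simp [hq, hf] at this

theorem Ctx.half (c : Ctx θ A0 A x e0) {Y : Matrix J J ℂ} (h1 : ∀ y : J → ℂ, nn y ≤ hi Y y) :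
    0 ≤ (f (Mk A0 A) Y * (starRingEnd ℂ) (D1 (Mk A0 A) Y (rk e0))).im := by
  by_contra hc
  push Not at hc
  set g := D1 (Mk A0 A) Y (rk e0) with hg
  have hg0 : g ≠ 0 := c.nd Y (fun y hy => lt_of_lt_of_le (nn_pos hy) (h1 y)) e0 c.e0_ne
  set t : ℂ := -(f (Mk A0 A) Y) / g with ht
  have hns : 0 < Complex.normSq g := Complex.normSq_pos.2 hg0
  have htim : 0 < t.im := by
    have e1 : t * ((Complex.normSq g : ℝ) : ℂ) = - (f (Mk A0 A) Y * (starRingEnd ℂ) g) := by
      rw [ht, ← Complex.mul_conj]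
      field_simp
    have e2 : t.im * Complex.normSq g = - (f (Mk A0 A) Y * (starRingEnd ℂ) g).im := by
      rw [← Complex.im_mul_ofReal, e1, Complex.neg_im]
    by_contra h
    push Not at h
    have := mul_nonpos_of_nonpos_of_nonneg h hns.le
    linarith
  have hz : f (Mk A0 A) (Y + t • rk e0) = 0 := by
    rw [f_rk, ← hg, ht]
    field_simp
    ring
  have hQ : Hm ((t.im : ℂ) • rk e0) := by
    intro i j
    simp only [Matrix.smul_apply, smul_eq_mul, map_mul, Complex.conj_ofReal]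
    rw [rk_herm e0 i j]
  refine c.mn (Y + t • rk e0) ((t.im : ℂ) • rk e0) hQ ?_ ?_ ?_ hz
  · intro y
    rw [hq_smul]
    exact mul_nonneg htim.le (hq_rk_nonneg _ _)
  · intro y
    rw [hi_add_smul (rk_herm e0), hq_smul]
    linarith [h1 y]
  · simp only [hpr_smul, hpr_rk]
    rw [← Finset.mul_sum]
    exact mul_pos htim c.pe

theorem Ctx.first (c : Ctx θ A0 A x e0) {H : Matrix J J ℂ} (hH : Hm H) :
    (D1 (Mk A0 A) (Zs x) H * (starRingEnd ℂ) (D1 (Mk A0 A) (Zs x) (rk e0))).im = 0 ∧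
    (D1 (Mk A0 A) (Zs x) H = 0 → 0 ≤ (D2 (Mk A0 A) (Zs x) H H *
      (starRingEnd ℂ) (D1 (Mk A0 A) (Zs x) (rk e0))).im) := by
  set P := PP (Mk A0 A) (Zs x) H with hP
  set G := PP (Mk A0 A) (Zs x + rk e0) H - P with hGd
  have hG : ∀ t : ℂ, G.eval t = D1 (Mk A0 A) (Zs x + t • H) (rk e0) := by
    intro t
    rw [hGd, Polynomial.eval_sub, hP, PP_eval, PP_eval]
    have h := f_rk (Mk A0 A) (Zs x + t • H) e0 1
    rw [one_smul, one_mul] at h
    rw [show Zs x + rk e0 + t • H = Zs x + t • H + rk e0 by abel, h]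
    ring
  have hG0 : G.coeff 0 = D1 (Mk A0 A) (Zs x) (rk e0) := by
    rw [Polynomial.coeff_zero_eq_eval_zero, hG, zero_smul, add_zero]
  have h := im_poly P G (by rw [hP, PP0, c.zero]) (fun t => by
    rw [hP, PP_eval, hG]
    refine c.half fun y => ?_
    rw [hi_add_smul hH, hi_Zs, Complex.ofReal_im, zero_mul, add_zero])
  rw [hG0, hP, PP1] at h
  refine ⟨h.1, fun h0 => ?_⟩
  have h2 := h.2
  rw [h0, zero_mul, add_zero] at h2
  rw [← PP2, mul_assoc]
  have e : (2 * ((PP (Mk A0 A) (Zs x) H).coeff 2 *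
      (starRingEnd ℂ) (D1 (Mk A0 A) (Zs x) (rk e0)))).im =
      2 * ((PP (Mk A0 A) (Zs x) H).coeff 2 *
      (starRingEnd ℂ) (D1 (Mk A0 A) (Zs x) (rk e0))).im := by
    rw [show (2 : ℂ) = ((2 : ℝ) : ℂ) by norm_num, Complex.im_ofReal_mul]
  rw [e]
  linarith

/-- the real functional -/
noncomputable def lam (A0 : Fin p → Matrix J J ℂ) (A : Fin p → Fin r → Matrix J J ℂ) (x : J → ℝ)
    (e0 : J → ℂ) (H : Matrix J J ℂ) : ℝ :=
  (D1 (Mk A0 A) (Zs x) H * (starRingEnd ℂ) (D1 (Mk A0 A) (Zs x) (rk e0))).re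

theorem lam_add (H K : Matrix J J ℂ) :
    lam A0 A x e0 (H + K) = lam A0 A x e0 H + lam A0 A x e0 K := by
  unfold lam
  rw [D1_add, add_mul, Complex.add_re]

theorem lam_smul (c : ℝ) (H : Matrix J J ℂ) :
    lam A0 A x e0 ((c : ℂ) • H) = c * lam A0 A x e0 H := by
  unfold lam
  rw [D1_smul, mul_assoc, Complex.re_ofReal_mul]

theorem lam_zero' : lam A0 A x e0 0 = 0 := by
  have := lam_smul (A0 := A0) (A := A) (x := x) (e0 := e0) 0 0
  simpa using this

theorem lam_sum {κ : Type*} (s : Finset κ) (H : κ → Matrix J J ℂ) :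
    lam A0 A x e0 (∑ a ∈ s, H a) = ∑ a ∈ s, lam A0 A x e0 (H a) := by
  classical
  induction s using Finset.induction_on with
  | empty => simpa using lam_zero'
  | insert a s ha ih => rw [Finset.sum_insert ha, Finset.sum_insert ha, lam_add, ih]

theorem Ctx.lam_eq (c : Ctx θ A0 A x e0) {H : Matrix J J ℂ} (hH : Hm H) :
    D1 (Mk A0 A) (Zs x) H * (starRingEnd ℂ) (D1 (Mk A0 A) (Zs x) (rk e0)) =
      (lam A0 A x e0 H : ℂ) := by
  apply Complex.ext
  · rfl
  · rw [(c.first hH).1, Complex.ofReal_im]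

theorem Ctx.g_ne (c : Ctx θ A0 A x e0) {e : J → ℂ} (he : e ≠ 0) :
    D1 (Mk A0 A) (Zs x) (rk e) ≠ 0 :=
  c.nd (Zs x) (fun y hy => by
    rw [hi_Zs]
    exact nn_pos hy) e he

theorem Ctx.lam_zero (c : Ctx θ A0 A x e0) {H : Matrix J J ℂ} (hH : Hm H)
    (h : lam A0 A x e0 H = 0) : D1 (Mk A0 A) (Zs x) H = 0 := by
  have h1 := c.lam_eq hH
  rw [h, Complex.ofReal_zero] at h1
  rcases mul_eq_zero.1 h1 with h2 | h2
  · exact h2
  · exact absurd ((map_eq_zero _).1 h2) (c.g_ne c.e0_ne)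

theorem Ctx.lam_pos (c : Ctx θ A0 A x e0) {e : J → ℂ} (he : e ≠ 0) :
    0 < lam A0 A x e0 (rk e) := by
  have hne : lam A0 A x e0 (rk e) ≠ 0 := fun h => c.g_ne he (c.lam_zero (rk_herm e) h)
  set d := D1 (Mk A0 A) (Zs x) (rk e) with hd
  set g0 := D1 (Mk A0 A) (Zs x) (rk e0) with hg0
  set g1 := D1 (Mk A0 A) (Zs x + rk e0) (rk e) - d with hg1
  have key : ∀ τ : ℝ, 0 < τ → 0 ≤ (d * (starRingEnd ℂ) (g0 + Complex.I * τ * g1)).re := by
    intro τ hτ
    set Y := Zs x + (Complex.I * τ) • rk e with hY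
    have h1 : f (Mk A0 A) Y = Complex.I * τ * d := by rw [hY, f_rk, c.zero, zero_add]
    have h2 : D1 (Mk A0 A) Y (rk e0) = g0 + Complex.I * τ * g1 := by
      have h3 := f_rk (Mk A0 A) Y e0 1
      rw [one_smul, one_mul] at h3
      have h4 : Y + rk e0 = (Zs x + rk e0) + (Complex.I * τ) • rk e := by
        rw [hY]
        abel
      have h5 := f_rk (Mk A0 A) (Zs x + rk e0) e (Complex.I * τ)
      have h6 := f_rk (Mk A0 A) (Zs x) e0 1
      rw [one_smul, one_mul, c.zero, zero_add] at h6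
      rw [h4, h5, h6, h1] at h3
      rw [hg1]
      linear_combination -h3
    have h := c.half (Y := Y) (fun y => by
      rw [hY, hi_add_smul (rk_herm e), hi_Zs]
      have h7 : (Complex.I * (τ : ℂ)).im = τ := by simp
      rw [h7]
      have := mul_nonneg hτ.le (hq_rk_nonneg e y)
      linarith)
    rw [h1, h2] at h
    set w := (starRingEnd ℂ) (g0 + Complex.I * τ * g1) with hw
    have h8 : (Complex.I * τ * d * w).im = τ * (d * w).re := by
      have : Complex.I * τ * d * w = Complex.I * ((τ : ℂ) * (d * w)) := by ring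
      rw [this, Complex.I_mul_im, Complex.re_ofReal_mul]
    rw [h8] at h
    exact nonneg_of_mul_nonneg_right h hτ
  by_contra hc
  push Not at hc
  have hneg : lam A0 A x e0 (rk e) < 0 := lt_of_le_of_ne hc hne
  set K := (d * (starRingEnd ℂ) (Complex.I * g1)).re with hK
  have hl : ∀ τ : ℝ, 0 < τ → 0 ≤ lam A0 A x e0 (rk e) + τ * K := by
    intro τ hτ
    have h := key τ hτ
    have e1 : (d * (starRingEnd ℂ) (g0 + Complex.I * τ * g1)).re =
        lam A0 A x e0 (rk e) + τ * K := by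
      have e2 : d * (starRingEnd ℂ) (g0 + Complex.I * τ * g1) =
          d * (starRingEnd ℂ) g0 + (τ : ℂ) * (d * (starRingEnd ℂ) (Complex.I * g1)) := by
        simp only [map_add, map_mul, Complex.conj_ofReal]
        ring
      rw [e2, Complex.add_re, Complex.re_ofReal_mul]
      rfl
    rwa [e1] at h
  set L := lam A0 A x e0 (rk e) with hL
  have hK1 : 0 < |K| + 1 := by positivity
  have h1 := hl (-L / (2 * (|K| + 1))) (div_pos (by linarith) (by positivity))
  have h2 : -L / (2 * (|K| + 1)) * K ≤ -L / 2 := by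
    rw [div_mul_eq_mul_div, div_le_div_iff₀ (by positivity) (by norm_num)]
    have h3 : K ≤ |K| + 1 := by linarith [le_abs_self K]
    nlinarith
  linarith

theorem Ctx.lam_nonneg (c : Ctx θ A0 A x e0) (e : J → ℂ) : 0 ≤ lam A0 A x e0 (rk e) := by
  by_cases he : e = 0
  · subst he
    have : rk (0 : J → ℂ) = 0 := by
      ext1 i j
      rw [rk_apply]
      simp
    rw [this, lam_zero']
  · exact (c.lam_pos he).le

theorem Ctx.lam_psd (c : Ctx θ A0 A x e0) {M : Matrix J J ℂ} (hs : Hm M)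
    (hp : ∀ y, 0 ≤ hq M y) : 0 ≤ lam A0 A x e0 M ∧ ∀ y, 0 < hq M y → 0 < lam A0 A x e0 M := by
  obtain ⟨m, a, ha⟩ := c.psd M hs hp
  have hM : M = ∑ k, rk (a k) := by
    ext1 i j
    rw [ha, Matrix.sum_apply]
    simp only [rk_apply]
  have h1 : lam A0 A x e0 M = ∑ k, lam A0 A x e0 (rk (a k)) := by rw [hM, lam_sum]
  refine ⟨?_, fun y hy => ?_⟩
  · rw [h1]
    exact Finset.sum_nonneg fun k _ => c.lam_nonneg _
  · obtain ⟨k, hk⟩ : ∃ k, a k ≠ 0 := by
      by_contra hc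
      push Not at hc
      have : M = 0 := by
        ext1 i j
        rw [ha]
        simp [hc]
      rw [this] at hy
      simp [hq, hf] at hy
    rw [h1]
    exact Finset.sum_pos' (fun k _ => c.lam_nonneg _) ⟨k, Finset.mem_univ k, c.lam_pos hk⟩

theorem cs_le {a q : Fin r → ℝ} {s p : ℝ} (hp : 0 ≤ p) (h : (∑ k, a k ^ 2) * (∑ k, q k ^ 2) ≤ p ^ 2)
    (hs : s = ∑ k, a k * q k) : s ≤ p := by
  have h1 : s ^ 2 ≤ p ^ 2 := by
    rw [hs]
    exact (Finset.sum_mul_sq_le_sq_mul_sq _ _ _).trans h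
  exact abs_le_of_sq_le_sq' h1 hp |>.2

theorem Ctx.sum_le (c : Ctx θ A0 A x e0) (g : Fin p) :
    ∑ k, lam A0 A x e0 (A g k) ^ 2 ≤ θ ^ 2 * lam A0 A x e0 (A0 g) ^ 2 := by
  set a0 := lam A0 A x e0 (A0 g) with ha0
  set s := ∑ k, lam A0 A x e0 (A g k) ^ 2 with hs
  have hs0 : 0 ≤ s := Finset.sum_nonneg fun _ _ => sq_nonneg _
  have ha0p : 0 ≤ a0 := (c.lam_psd (c.ad g).herm0 (c.ad g).nonneg).1
  set S := Real.sqrt s with hS
  have hSS : S ^ 2 = s := Real.sq_sqrt hs0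
  have hS0 : 0 ≤ S := Real.sqrt_nonneg s
  set M : Matrix J J ℂ := ((θ * S : ℝ) : ℂ) • A0 g +
    ∑ k, ((-lam A0 A x e0 (A g k) : ℝ) : ℂ) • A g k with hM
  have hMs : Hm M := herm_comb (c.ad g).herm0 (c.ad g).herm _ _
  have hMp : ∀ y, 0 ≤ hq M y := by
    intro y
    rw [hM, hq_add, hq_smul, hq_sum]
    simp only [hq_smul]
    have h1 : ∑ k, lam A0 A x e0 (A g k) * hq (A g k) y ≤ θ * S * hq (A0 g) y := by
      refine cs_le (a := fun k => lam A0 A x e0 (A g k)) (q := fun k => hq (A g k) y)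
        (mul_nonneg (mul_nonneg c.th0 hS0) ((c.ad g).nonneg y)) ?_ rfl
      have h2 := mul_le_mul_of_nonneg_left ((c.ad g).bd y) hs0
      calc _ ≤ s * (θ ^ 2 * hq (A0 g) y ^ 2) := h2
        _ = (θ * S * hq (A0 g) y) ^ 2 := by rw [← hSS]; ring
    have h3 : ∑ k, -lam A0 A x e0 (A g k) * hq (A g k) y =
        -∑ k, lam A0 A x e0 (A g k) * hq (A g k) y := by
      rw [← Finset.sum_neg_distrib]
      exact Finset.sum_congr rfl fun k _ => by ring
    rw [h3]
    linarith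
  have h1 := (c.lam_psd hMs hMp).1
  rw [hM, lam_add, lam_smul, lam_sum] at h1
  simp only [lam_smul] at h1
  have h2 : ∑ k, -lam A0 A x e0 (A g k) * lam A0 A x e0 (A g k) = -s := by
    rw [hs, ← Finset.sum_neg_distrib]
    exact Finset.sum_congr rfl fun k _ => by ring
  rw [h2, ← hSS, ← ha0] at h1
  rw [← hSS]
  by_cases hS1 : S = 0
  · rw [hS1]
    have := mul_nonneg (sq_nonneg θ) (sq_nonneg a0)
    nlinarith
  · have hSp : 0 < S := lt_of_le_of_ne hS0 (Ne.symm hS1)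
    have h3 : S ≤ θ * a0 := by
      have : S * S ≤ S * (θ * a0) := by nlinarith
      exact le_of_mul_le_mul_left this hSp
    calc S ^ 2 ≤ (θ * a0) ^ 2 := pow_le_pow_left₀ hS0 h3 2
      _ = _ := by ring

theorem D2_exp {ι : Type} [Fintype ι] [DecidableEq ι] (M : ι → Matrix J J ℂ) (Z : Matrix J J ℂ)
    (B0 : Matrix J J ℂ) (B : Fin r → Matrix J J ℂ) (c0 : ℝ) (c : Fin r → ℝ) :
    D2 M Z ((c0 : ℂ) • B0 + ∑ k, (c k : ℂ) • B k) ((c0 : ℂ) • B0 + ∑ k, (c k : ℂ) • B k) =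
      ((c0 * c0 : ℝ) : ℂ) * D2 M Z B0 B0 +
      2 * ∑ k, ((c0 * c k : ℝ) : ℂ) * D2 M Z B0 (B k) +
      ∑ k, ∑ l, ((c k * c l : ℝ) : ℂ) * D2 M Z (B k) (B l) := by
  rw [D2_add_right, D2_smul_right, D2_sum_right]
  simp only [D2_smul_right, D2_add_left, D2_smul_left, D2_sum_left, mul_add,
    Finset.sum_add_distrib, Finset.mul_sum]
  have e1 : ∀ k, D2 M Z (B k) B0 = D2 M Z B0 (B k) :=
    fun k => D2_symm _ _ _ _
  simp only [e1]
  have e2 : ∑ k, ∑ l, (c k : ℂ) * ((c l : ℂ) * D2 M Z (B l) (B k)) =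
      ∑ k, ∑ l, ((c k * c l : ℝ) : ℂ) * D2 M Z (B k) (B l) := by
    refine Finset.sum_congr rfl fun k _ => Finset.sum_congr rfl fun l _ => ?_
    rw [D2_symm M Z (B l)]
    push_cast
    ring
  rw [e2]
  have e3 : ∑ k, (c0 : ℂ) * ((c k : ℂ) * D2 M Z B0 (B k)) =
      ∑ k, ((c0 * c k : ℝ) : ℂ) * D2 M Z B0 (B k) := by
    refine Finset.sum_congr rfl fun k _ => ?_
    push_cast
    ring
  have e4 : ∑ k, (c k : ℂ) * ((c0 : ℂ) * D2 M Z B0 (B k)) =
      ∑ k, ((c0 * c k : ℝ) : ℂ) * D2 M Z B0 (B k) := by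
    refine Finset.sum_congr rfl fun k _ => ?_
    push_cast
    ring
  have e5 : ∑ k, 2 * (((c0 * c k : ℝ) : ℂ) * D2 M Z B0 (B k)) =
      2 * ∑ k, ((c0 * c k : ℝ) : ℂ) * D2 M Z B0 (B k) := by
    rw [Finset.mul_sum]
  rw [e3, e4, e5]
  push_cast
  ring

/-- the contribution of one group -/
theorem Ctx.group (c : Ctx θ A0 A x e0) (g : Fin p) :
    ((D2 (Mk A0 A) (Zs x) (A0 g) (A0 g) - ∑ k, D2 (Mk A0 A) (Zs x) (A g k) (A g k)) *
      (starRingEnd ℂ) (D1 (Mk A0 A) (Zs x) (rk e0))).im ≤ 0 := by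
  set g0 := D1 (Mk A0 A) (Zs x) (rk e0) with hg0
  by_cases hex : ∃ e, 0 < hq (A0 g) e
  swap
  · push Not at hex
    have hz0 : ∀ y, hq (A0 g) y = 0 := fun y => le_antisymm (hex y) ((c.ad g).nonneg y)
    have hA0 : A0 g = 0 := zero_of_hq c.psd (c.ad g).herm0 hz0
    have hAk : ∀ k, A g k = 0 := by
      intro k
      refine zero_of_hq c.psd ((c.ad g).herm k) fun y => ?_
      have h1 := (c.ad g).bd y
      rw [hz0 y] at h1
      have h2 : hq (A g k) y ^ 2 ≤ ∑ k, hq (A g k) y ^ 2 :=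
        Finset.single_le_sum (f := fun k => hq (A g k) y ^ 2) (fun k _ => sq_nonneg _)
          (Finset.mem_univ k)
      have h3 : hq (A g k) y ^ 2 ≤ 0 := by
        refine h2.trans (h1.trans ?_)
        simp
      exact pow_eq_zero_iff (two_ne_zero) |>.1 (le_antisymm h3 (sq_nonneg _))
    have hD : ∀ Z : Matrix J J ℂ, D2 (Mk A0 A) Z 0 0 = 0 := by
      intro Z
      have := D2_smul_right (Mk A0 A) Z 0 0 0
      simpa using this
    rw [hA0]
    simp [hAk, hD]
  obtain ⟨e1, he1⟩ := hex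
  set a0 := lam A0 A x e0 (A0 g) with ha0
  set a : Fin r → ℝ := fun k => lam A0 A x e0 (A g k) with ha
  have ha0p : 0 < a0 := (c.lam_psd (c.ad g).herm0 (c.ad g).nonneg).2 e1 he1
  have hsum : ∑ k, a k ^ 2 ≤ θ ^ 2 * a0 ^ 2 := c.sum_le g
  have hθ2 : θ ^ 2 < 1 := by nlinarith [c.th0, c.th1]
  have hlt : ∑ k, a k ^ 2 < a0 ^ 2 := by
    refine lt_of_le_of_lt hsum ?_
    have : 0 < a0 ^ 2 := by positivity
    nlinarith
  set β := a0 ^ 2 - ∑ k, a k ^ 2 with hβ
  have hβ0 : 0 < β := by linarith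
  set b : Matrix J J ℂ := (a0 : ℂ) • A0 g + ∑ k, ((-a k : ℝ) : ℂ) • A g k with hb
  have hbs : Hm b := herm_comb (c.ad g).herm0 (c.ad g).herm _ _
  have hbq : ∀ y, (1 - θ ^ 2) * a0 * hq (A0 g) y ≤ hq b y := by
    intro y
    rw [hb, hq_add, hq_smul, hq_sum]
    simp only [hq_smul]
    have h1 : ∑ k, a k * hq (A g k) y ≤ θ ^ 2 * a0 * hq (A0 g) y := by
      refine cs_le (a := a) (q := fun k => hq (A g k) y)
        (mul_nonneg (mul_nonneg (sq_nonneg θ) ha0p.le) ((c.ad g).nonneg y)) ?_ rfl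
      have h2 := mul_le_mul hsum ((c.ad g).bd y) (Finset.sum_nonneg fun _ _ => sq_nonneg _)
        (mul_nonneg (sq_nonneg θ) (sq_nonneg a0))
      calc _ ≤ θ ^ 2 * a0 ^ 2 * (θ ^ 2 * hq (A0 g) y ^ 2) := h2
        _ = (θ ^ 2 * a0 * hq (A0 g) y) ^ 2 := by ring
    have h3 : ∑ k, -a k * hq (A g k) y = -∑ k, a k * hq (A g k) y := by
      rw [← Finset.sum_neg_distrib]
      exact Finset.sum_congr rfl fun k _ => by ring
    rw [h3]
    linarith
  have hbp : ∀ y, 0 ≤ hq b y := by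
    intro y
    refine le_trans ?_ (hbq y)
    have h1 := (c.ad g).nonneg y
    have h2 : 0 ≤ (1 - θ ^ 2) * a0 := mul_nonneg (by linarith) ha0p.le
    exact mul_nonneg h2 h1
  have hlamb : lam A0 A x e0 b = β := by
    rw [hb, lam_add, lam_smul, lam_sum]
    simp only [lam_smul]
    have h2 : ∑ k, -a k * lam A0 A x e0 (A g k) = -∑ k, a k ^ 2 := by
      rw [← Finset.sum_neg_distrib]
      exact Finset.sum_congr rfl fun k _ => by simp only [ha]; ring
    rw [h2, ← ha0, hβ]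
    ring
  -- the pairing of `b` and `A0`
  have hprn : ∀ s, 0 ≤ hpr b (A0 s) := by
    intro s
    obtain ⟨m, v, hv⟩ := c.psd (A0 s) (c.ad s).herm0 (c.ad s).nonneg
    rw [hpr_dec hv]
    exact Finset.sum_nonneg fun k _ => hbp _
  have hprb : 0 < hpr b (A0 g) := by
    obtain ⟨m, v, hv⟩ := c.psd (A0 g) (c.ad g).herm0 (c.ad g).nonneg
    have h1 : (1 - θ ^ 2) * a0 * hpr (A0 g) (A0 g) ≤ hpr b (A0 g) := by
      rw [hpr_dec hv, hpr_dec hv, Finset.mul_sum]
      exact Finset.sum_le_sum fun k _ => hbq _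
    have h2 : 0 < hpr (A0 g) (A0 g) := by
      have h2a : hpr (A0 g) (A0 g) = ∑ i, ∑ j, Complex.normSq (A0 g i j) := by
        unfold hpr
        simp only [Complex.mul_conj]
        rw [Complex.re_sum]
        refine Finset.sum_congr rfl fun i _ => ?_
        rw [Complex.re_sum]
        exact Finset.sum_congr rfl fun j _ => Complex.ofReal_re _
      rw [h2a]
      have h3 : ∀ i, 0 ≤ ∑ j, Complex.normSq (A0 g i j) := fun i => Finset.sum_nonneg fun j _ =>
        Complex.normSq_nonneg _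
      refine lt_of_le_of_ne (Finset.sum_nonneg fun i _ => h3 i) fun h4 => ?_
      have h5 := (Finset.sum_eq_zero_iff_of_nonneg fun i _ => h3 i).1 h4.symm
      have h6 : ∀ i j, A0 g i j = 0 := by
        intro i j
        have h7 := (Finset.sum_eq_zero_iff_of_nonneg fun j _ => Complex.normSq_nonneg _).1
          (h5 i (Finset.mem_univ i)) j (Finset.mem_univ j)
        exact Complex.normSq_eq_zero.1 h7
      unfold hq hf at he1
      simp [h6] at he1
    refine lt_of_lt_of_le ?_ h1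
    exact mul_pos (mul_pos (by linarith) ha0p) h2
  have hprt : 0 < ∑ s, hpr b (A0 s) :=
    Finset.sum_pos' (fun s _ => hprn s) ⟨g, Finset.mem_univ g, hprb⟩
  -- the roots along `b`
  have hroot := root_im (PP (Mk A0 A) (Zs x) b) (by rw [PP0, c.zero]) (by
    rw [PP1]
    intro h
    have h1 := c.lam_eq hbs
    rw [h, zero_mul, hlamb] at h1
    have : β = 0 := by exact_mod_cast h1.symm
    linarith) (fun z hz => by
      rw [PP_eval]
      have hQ : Hm ((z.im : ℂ) • b) := by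
        intro i j
        simp only [Matrix.smul_apply, smul_eq_mul, map_mul, Complex.conj_ofReal]
        rw [hbs i j]
      refine c.mn _ ((z.im : ℂ) • b) hQ ?_ ?_ ?_
      · intro y
        rw [hq_smul]
        exact mul_nonneg hz.le (hbp y)
      · intro y
        rw [hi_add_smul hbs, hi_Zs, hq_smul]
      · simp only [hpr_smul]
        rw [← Finset.mul_sum]
        exact mul_pos hz hprt)
  rw [PP1] at hroot
  have hbb : (D2 (Mk A0 A) (Zs x) b b * (starRingEnd ℂ) g0).im ≤ 0 := by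
    set p2 := (PP (Mk A0 A) (Zs x) b).coeff 2 with hp2
    set db := D1 (Mk A0 A) (Zs x) b with hdb
    have h1 : db * (starRingEnd ℂ) g0 = (β : ℂ) := by
      rw [← hlamb]
      exact c.lam_eq hbs
    have h2 : (starRingEnd ℂ) db * g0 = (β : ℂ) := by
      have := congrArg (starRingEnd ℂ) h1
      rwa [map_mul, Complex.conj_conj, Complex.conj_ofReal] at this
    have h3 : p2 * (starRingEnd ℂ) db * ((Complex.normSq g0 : ℝ) : ℂ) =
        (β : ℂ) * (p2 * (starRingEnd ℂ) g0) := by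
      rw [← Complex.mul_conj, ← h2]
      ring
    have h4 : (p2 * (starRingEnd ℂ) db).im * Complex.normSq g0 =
        β * (p2 * (starRingEnd ℂ) g0).im := by
      rw [← Complex.im_mul_ofReal, h3, Complex.im_ofReal_mul]
    have h5 : β * (p2 * (starRingEnd ℂ) g0).im ≤ 0 := by
      rw [← h4]
      exact mul_nonpos_of_nonpos_of_nonneg hroot (Complex.normSq_nonneg _)
    have h6 : (p2 * (starRingEnd ℂ) g0).im ≤ 0 := by
      by_contra hc
      push Not at hc
      have := mul_pos hβ0 hc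
      linarith
    rw [← PP2, mul_assoc, show (2 : ℂ) = ((2 : ℝ) : ℂ) by norm_num, Complex.im_ofReal_mul]
    linarith
  -- the other directions
  obtain ⟨m, w0, w, h00, h0k, hkl, hort⟩ := lor a0 a hlt
  rw [← hβ] at h00
  simp only [← hβ] at h0k hkl
  have hv : ∀ t, 0 ≤ (D2 (Mk A0 A) (Zs x) ((w0 t : ℂ) • A0 g + ∑ k, (w t k : ℂ) • A g k)
      ((w0 t : ℂ) • A0 g + ∑ k, (w t k : ℂ) • A g k) * (starRingEnd ℂ) g0).im := by
    intro t
    have hvs : Hm ((w0 t : ℂ) • A0 g + ∑ k, (w t k : ℂ) • A g k) :=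
      herm_comb (c.ad g).herm0 (c.ad g).herm _ _
    refine (c.first hvs).2 (c.lam_zero hvs ?_)
    rw [lam_add, lam_smul, lam_sum]
    simp only [lam_smul]
    exact hort t
  have hsumv : ∑ t, D2 (Mk A0 A) (Zs x) ((w0 t : ℂ) • A0 g + ∑ k, (w t k : ℂ) • A g k)
      ((w0 t : ℂ) • A0 g + ∑ k, (w t k : ℂ) • A g k) =
      ((1 / β : ℝ) : ℂ) * D2 (Mk A0 A) (Zs x) b b - D2 (Mk A0 A) (Zs x) (A0 g) (A0 g) +
        ∑ k, D2 (Mk A0 A) (Zs x) (A g k) (A g k) := by
    rw [hb, D2_exp]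
    simp only [D2_exp, Finset.sum_add_distrib, ← Finset.mul_sum]
    have e1 : ∑ t, ((w0 t * w0 t : ℝ) : ℂ) * D2 (Mk A0 A) (Zs x) (A0 g) (A0 g) =
        ((a0 * a0 / β - 1 : ℝ) : ℂ) * D2 (Mk A0 A) (Zs x) (A0 g) (A0 g) := by
      rw [← Finset.sum_mul, ← h00]
      push_cast
      rfl
    have e2 : ∑ t, ∑ k, ((w0 t * w t k : ℝ) : ℂ) * D2 (Mk A0 A) (Zs x) (A0 g) (A g k) =
        ∑ k, ((-(a0 * a k) / β : ℝ) : ℂ) * D2 (Mk A0 A) (Zs x) (A0 g) (A g k) := by
      rw [Finset.sum_comm]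
      refine Finset.sum_congr rfl fun k _ => ?_
      rw [← Finset.sum_mul, ← h0k]
      push_cast
      rfl
    have e3 : ∑ t, ∑ k, ∑ l, ((w t k * w t l : ℝ) : ℂ) * D2 (Mk A0 A) (Zs x) (A g k) (A g l) =
        ∑ k, ∑ l, ((a k * a l / β + (if k = l then 1 else 0) : ℝ) : ℂ) *
          D2 (Mk A0 A) (Zs x) (A g k) (A g l) := by
      rw [Finset.sum_comm]
      refine Finset.sum_congr rfl fun k _ => ?_
      rw [Finset.sum_comm]
      refine Finset.sum_congr rfl fun l _ => ?_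
      rw [← Finset.sum_mul, ← hkl]
      push_cast
      rfl
    have e4 : ∑ k, ∑ l, ((a k * a l / β + (if k = l then 1 else 0) : ℝ) : ℂ) *
          D2 (Mk A0 A) (Zs x) (A g k) (A g l) =
        ((1 / β : ℝ) : ℂ) * ∑ k, ∑ l, ((-a k * -a l : ℝ) : ℂ) *
          D2 (Mk A0 A) (Zs x) (A g k) (A g l) + ∑ k, D2 (Mk A0 A) (Zs x) (A g k) (A g k) := by
      rw [Finset.mul_sum, ← Finset.sum_add_distrib]
      refine Finset.sum_congr rfl fun k _ => ?_
      have e5 : D2 (Mk A0 A) (Zs x) (A g k) (A g k) =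
          ∑ l, ((if k = l then (1 : ℝ) else 0 : ℝ) : ℂ) * D2 (Mk A0 A) (Zs x) (A g k) (A g l) := by
        rw [Finset.sum_eq_single k]
        · simp
        · intro l _ hl
          simp [Ne.symm hl]
        · simp
      conv_rhs => rw [e5]
      rw [Finset.mul_sum, ← Finset.sum_add_distrib]
      refine Finset.sum_congr rfl fun l _ => ?_
      push_cast
      ring
    have e6 : ∑ k, ((-(a0 * a k) / β : ℝ) : ℂ) * D2 (Mk A0 A) (Zs x) (A0 g) (A g k) =
        ((1 / β : ℝ) : ℂ) * ∑ k, ((a0 * -a k : ℝ) : ℂ) * D2 (Mk A0 A) (Zs x) (A0 g) (A g k) := by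
      rw [Finset.mul_sum]
      refine Finset.sum_congr rfl fun k _ => ?_
      push_cast
      ring
    rw [e1, e2, e3, e4, e6]
    push_cast
    ring
  have hfin : D2 (Mk A0 A) (Zs x) (A0 g) (A0 g) - ∑ k, D2 (Mk A0 A) (Zs x) (A g k) (A g k) =
      ((1 / β : ℝ) : ℂ) * D2 (Mk A0 A) (Zs x) b b -
      ∑ t, D2 (Mk A0 A) (Zs x) ((w0 t : ℂ) • A0 g + ∑ k, (w t k : ℂ) • A g k)
        ((w0 t : ℂ) • A0 g + ∑ k, (w t k : ℂ) • A g k) := by
    rw [hsumv]
    ring
  rw [hfin, sub_mul, Complex.sub_im, mul_assoc, Complex.im_ofReal_mul, Finset.sum_mul,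
    Complex.im_sum]
  have h2 := Finset.sum_nonneg fun t (_ : t ∈ Finset.univ) => hv t
  have h3 : 1 / β * (D2 (Mk A0 A) (Zs x) b b * (starRingEnd ℂ) g0).im ≤ 0 :=
    mul_nonpos_of_nonneg_of_nonpos (by positivity) hbb
  linarith

theorem Ctx.false (c : Ctx θ A0 A x e0) : False := by
  set g0 := D1 (Mk A0 A) (Zs x) (rk e0) with hg0
  -- the Euler relation
  have heu := euler (Mk A0 A) (Zs x)
  rw [c.zero, mul_zero, Fintype.sum_prod_type] at heu
  simp only [Fintype.sum_option, Mk, D2_smul_left, D2_smul_right] at heu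
  have hD1 : (D1 (Mk A0 A) (Zs x) (Zs x) * (starRingEnd ℂ) g0).im = lam A0 A x e0 1 := by
    have h1 : D1 (Mk A0 A) (Zs x) (Zs x) * (starRingEnd ℂ) g0 =
        (lam A0 A x e0 (Matrix.diagonal fun j => (x j : ℂ)) : ℂ) +
          Complex.I * (lam A0 A x e0 1 : ℂ) := by
      conv_lhs => rw [show D1 (Mk A0 A) (Zs x) (Zs x) = D1 (Mk A0 A) (Zs x)
        ((Matrix.diagonal fun j => (x j : ℂ)) + Complex.I • (1 : Matrix J J ℂ)) by rw [← Zs_eq]]
      rw [D1_add, D1_smul, add_mul, mul_assoc, c.lam_eq (diag_herm x), c.lam_eq one_herm]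
    rw [h1]
    simp
  have hone : 0 < lam A0 A x e0 1 := by
    have h1 : ∀ y : J → ℂ, hq (1 : Matrix J J ℂ) y = nn y := by
      intro y
      unfold hq
      rw [hf_one, Complex.ofReal_re]
    refine (c.lam_psd (M := 1) one_herm fun y => ?_).2 e0 ?_
    · rw [h1]
      exact nn_nonneg y
    · rw [h1]
      exact nn_pos c.e0_ne
  have hfin : D1 (Mk A0 A) (Zs x) (Zs x) = ∑ s, (D2 (Mk A0 A) (Zs x) (A0 s) (A0 s) -
      ∑ k, D2 (Mk A0 A) (Zs x) (A s k) (A s k)) := by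
    have h1 : ∀ s, Complex.I * (Complex.I * D2 (Mk A0 A) (Zs x) (A0 s) (A0 s)) +
        ∑ k, D2 (Mk A0 A) (Zs x) (A s k) (A s k) = -(D2 (Mk A0 A) (Zs x) (A0 s) (A0 s) -
      ∑ k, D2 (Mk A0 A) (Zs x) (A s k) (A s k)) := by
      intro s
      rw [← mul_assoc, Complex.I_mul_I]
      ring
    simp only [h1, Finset.sum_neg_distrib] at heu
    linear_combination -heu
  have h1 : (D1 (Mk A0 A) (Zs x) (Zs x) * (starRingEnd ℂ) g0).im ≤ 0 := by
    rw [hfin, Finset.sum_mul, Complex.im_sum]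
    exact Finset.sum_nonpos fun s _ => c.group s
  rw [hD1] at h1
  linarith

end

/-- the extremal case -/
theorem contra (hpsd : ∀ n : ℕ, PsdStm (Fin n)) : ContraStm := by
  intro n p r θ h0 h1 A0 A hA hmn hnd x hz
  by_cases hc : ∃ e0, 0 < ∑ s, hq (A0 s) e0
  · obtain ⟨e0, he0⟩ := hc
    exact (⟨h0, h1, hA, hmn, hnd, hz, he0, hpsd (n + 1)⟩ : Ctx θ A0 A x e0).false
  · push Not at hc
    have hz0 : ∀ s y, hq (A0 s) y = 0 := by
      intro s y
      have h2 := (Finset.sum_eq_zero_iff_of_nonneg fun s _ => (hA s).nonneg y).1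
        (le_antisymm (hc y) (Finset.sum_nonneg fun s _ => (hA s).nonneg y)) s (Finset.mem_univ s)
      exact h2
    have hA0 : ∀ s, A0 s = 0 := fun s => zero_of_hq (hpsd (n + 1)) (hA s).herm0 (hz0 s)
    have hAk : ∀ s k, A s k = 0 := by
      intro s k
      refine zero_of_hq (hpsd (n + 1)) ((hA s).herm k) fun y => ?_
      have h1 := (hA s).bd y
      rw [hz0 s y] at h1
      have h2 : hq (A s k) y ^ 2 ≤ ∑ k, hq (A s k) y ^ 2 :=
        Finset.single_le_sum (f := fun k => hq (A s k) y ^ 2) (fun k _ => sq_nonneg _)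
          (Finset.mem_univ k)
      have h3 : hq (A s k) y ^ 2 ≤ 0 := by
        refine h2.trans (h1.trans ?_)
        simp
      exact pow_eq_zero_iff (two_ne_zero) |>.1 (le_antisymm h3 (sq_nonneg _))
    have hG : GG (Mk A0 A) = 0 := by
      ext1 i j
      rw [GG, Matrix.zero_apply]
      refine Finset.sum_eq_zero fun a _ => ?_
      obtain ⟨s, k⟩ := a
      cases k with
      | none => simp [Mk, hA0]
      | some k => simp [Mk, hAk]
    rw [f_eq, MM, hG, add_zero] at hz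
    have h2 : ((Matrix.diagonal fun j => (x j : ℂ) + Complex.I).map C :
        Matrix (Fin (n + 1)) (Fin (n + 1)) (S (Fin p × Option (Fin r)))) =
        Matrix.diagonal fun j => C ((x j : ℂ) + Complex.I) := by
      ext1 i j
      by_cases h : i = j
      · subst h
        simp
      · simp [h]
    rw [h2, Matrix.det_diagonal, ← map_prod, E_C, Finset.prod_eq_zero_iff] at hz
    obtain ⟨j, -, hj⟩ := hz
    have h3 := congrArg Complex.im hj
    simp at h3

end Pool.Agent.Helper27.HZ
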