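import Pool.Agent.Helper27.HZ.Stm2

/-!
# Sums and restrictions of representations of arrays
-/

set_option autoImplicit false

open scoped BigOperators

namespace Pool.Agent.Helper27.HZ

open Pool.Agent.Helper27.HY (Bf)

theorem sum : SumStm := by
  intro J _ _ R R' h h'
  obtain ⟨p, r, q, A0, A, w, h1, h2, h3, h4, h5, h6⟩ := h
  obtain ⟨p', r', q', A0', A', w', h1', h2', h3', h4', h5', h6'⟩ := h'
  refine ⟨p + p', r + r', q + q', Fin.append A0 A0',
    Fin.append (fun s => Fin.append (A s) (fun _ => 0)) (fun s => Fin.append (fun _ => 0) (A' s)),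
    Fin.append w w', ?_, ?_, ?_, ?_, ?_, ?_⟩
  · intro s
    refine Fin.addCases ?_ ?_ s
    · intro t i j
      rw [Fin.append_left]
      exact h1 t i j
    · intro t i j
      rw [Fin.append_right]
      exact h1' t i j
  · intro s
    refine Fin.addCases ?_ ?_ s
    · intro t k
      rw [Fin.append_left]
      refine Fin.addCases ?_ ?_ k
      · intro u i j
        rw [Fin.append_left]
        exact h2 t u i j
      · intro u i j
        rw [Fin.append_right]
        rfl
    · intro t k
      rw [Fin.append_right]
      refine Fin.addCases ?_ ?_ k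
      · intro u i j
        rw [Fin.append_left]
        rfl
      · intro u i j
        rw [Fin.append_right]
        exact h2' t u i j
  · intro s
    refine Fin.addCases ?_ ?_ s
    · intro t i j
      rw [Fin.append_left]
      exact h3 t i j
    · intro t i j
      rw [Fin.append_right]
      exact h3' t i j
  · intro s
    refine Fin.addCases ?_ ?_ s
    · intro t x
      rw [Fin.append_left]
      exact h4 t x
    · intro t x
      rw [Fin.append_right]
      exact h4' t x
  · intro s
    refine Fin.addCases ?_ ?_ s
    · intro t x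
      rw [Fin.append_left, Fin.append_left, Fin.sum_univ_add]
      refine le_trans (le_of_eq ?_) (h5 t x)
      simp only [Fin.append_left, Fin.append_right, Matrix.zero_apply, zero_mul,
        Finset.sum_const_zero]
      norm_num
    · intro t x
      rw [Fin.append_right, Fin.append_right, Fin.sum_univ_add]
      refine le_trans (le_of_eq ?_) (h5' t x)
      simp only [Fin.append_left, Fin.append_right, Matrix.zero_apply, zero_mul,
        Finset.sum_const_zero]
      norm_num
  · intro i j k l
    rw [Fin.sum_univ_add, Fin.sum_univ_add]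
    simp only [Fin.append_left, Fin.append_right]
    have e1 : ∀ (s : Fin p) (i j k l : J),
        Bf (A0 s) (Fin.append (A s) (fun _ : Fin r' => 0)) i j k l = Bf (A0 s) (A s) i j k l := by
      intro s i j k l
      unfold Bf
      rw [Fin.sum_univ_add]
      simp only [Fin.append_left, Fin.append_right, Matrix.zero_apply, zero_mul,
        Finset.sum_const_zero, add_zero]
    have e2 : ∀ (s : Fin p') (i j k l : J),
        Bf (A0' s) (Fin.append (fun _ : Fin r => 0) (A' s)) i j k l =
          Bf (A0' s) (A' s) i j k l := by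
      intro s i j k l
      unfold Bf
      rw [Fin.sum_univ_add]
      simp only [Fin.append_left, Fin.append_right, Matrix.zero_apply, zero_mul,
        Finset.sum_const_zero, zero_add]
    simp only [e1, e2]
    rw [h6 i j k l, h6' i j k l]
    ring

theorem ext_sum {J J' : Type} [Fintype J] [Fintype J'] (ι : J' → J) (hι : Function.Injective ι)
    (F : J → ℝ) (hF : ∀ a, (∀ b, ι b ≠ a) → F a = 0) : ∑ a, F a = ∑ b, F (ι b) := by
  have h1 : ∑ b, F (ι b) = ∑ a ∈ Finset.univ.map ⟨ι, hι⟩, F a := by
    rw [Finset.sum_map]
    rfl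
  rw [h1]
  symm
  refine Finset.sum_subset (Finset.subset_univ _) ?_
  intro a _ ha
  refine hF a fun b hb => ha ?_
  rw [Finset.mem_map]
  exact ⟨b, Finset.mem_univ _, hb⟩

theorem form_restr {J J' : Type} [Fintype J] [Fintype J'] (ι : J' → J)
    (hι : Function.Injective ι) (M : Matrix J J ℝ) (x : J' → ℝ) :
    ∑ i, ∑ j, M (ι i) (ι j) * (x i * x j) =
      ∑ i, ∑ j, M i j * (Function.extend ι x 0 i * Function.extend ι x 0 j) := by
  have h0 : ∀ a, (∀ b, ι b ≠ a) → Function.extend ι x 0 a = 0 := by
    intro a ha
    rw [Function.extend_apply' x (0 : J → ℝ) a (by rintro ⟨b, hb⟩; exact ha b hb)]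
    rfl
  have h1 : ∀ b, Function.extend ι x 0 (ι b) = x b := fun b => hι.extend_apply x 0 b
  rw [ext_sum ι hι (fun i => ∑ j, M i j * (Function.extend ι x 0 i * Function.extend ι x 0 j))]
  · refine Finset.sum_congr rfl fun i _ => ?_
    rw [ext_sum ι hι (fun j => M (ι i) j *
      (Function.extend ι x 0 (ι i) * Function.extend ι x 0 j))]
    · refine Finset.sum_congr rfl fun j _ => ?_
      rw [h1, h1]
    · intro a ha
      simp only [h0 a ha, mul_zero]
  · intro a ha
    simp only [h0 a ha, zero_mul, mul_zero, Finset.sum_const_zero]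

theorem restr : RestrStm := by
  intro J J' _ _ _ _ ι hι R h
  obtain ⟨p, r, q, A0, A, w, h1, h2, h3, h4, h5, h6⟩ := h
  refine ⟨p, r, q, fun s i j => A0 s (ι i) (ι j), fun s k i j => A s k (ι i) (ι j),
    fun a i j => w a (ι i) (ι j), fun s i j => h1 s _ _, fun s k i j => h2 s k _ _,
    fun a i j => h3 a _ _, ?_, ?_, ?_⟩
  · intro s x
    rw [form_restr ι hι (A0 s) x]
    exact h4 s _
  · intro s x
    rw [form_restr ι hι (A0 s) x]
    refine le_trans (le_of_eq ?_) (h5 s (Function.extend ι x 0))
    refine Finset.sum_congr rfl fun k _ => ?_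
    rw [form_restr ι hι (A s k) x]
  · intro i j k l
    exact h6 (ι i) (ι j) (ι k) (ι l)

end Pool.Agent.Helper27.HZ
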