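import Pool.Agent.Helper27.HZ.Stm2
import Pool.Agent.Helper27.HY.Wrap

/-!
# From the theorem for arrays to tensors and integrals: sums
-/

set_option autoImplicit false

open scoped BigOperators

namespace Pool.Agent.Helper27.HZ

open Pool.Agent.Helper27.HY
open Pool.Agent.W666.GB MeasureTheory

/-- the zero array -/
theorem WrapA_zero {J : Type} [Fintype J] : RepG (fun _ _ _ _ : J => (0 : ℝ)) := by
  refine ⟨0, 0, 0, fun s => s.elim0, fun s => s.elim0, fun a => a.elim0, fun s => s.elim0,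
    fun s => s.elim0, fun a => a.elim0, fun s => s.elim0, fun s => s.elim0, fun i j k l => ?_⟩
  simp

/-- finite sums -/
theorem WrapA_sum (hS : SumStm) {J : Type} [Fintype J] [DecidableEq J] (p : ℕ)
    (Q : Fin p → J → J → J → J → ℝ) (hQ : ∀ s, RepG (Q s)) :
    RepG fun a b c d => ∑ s, Q s a b c d := by
  induction p with
  | zero =>
    have h := WrapA_zero (J := J)
    simpa using h
  | succ p ih =>
    have h1 := ih (fun s => Q s.succ) fun s => hQ s.succ
    have h2 := hS J _ _ (hQ 0) h1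
    simp only [Fin.sum_univ_succ]
    exact h2

section

variable {m : ℕ} {V : Type*} [NormedAddCommGroup V] [InnerProductSpace ℝ V]

theorem WrapA_smul3 {R : V → V → V → V → ℝ} (hR : AlgCurv R) (t : ℝ) (x y z w : V) :
    R x y (t • z) w = t * R x y z w := by
  rw [← hR.pair x y (t • z) w, hR.smul, hR.pair]

theorem WrapA_unit_basis (e : OrthonormalBasis (Fin m × Bool) ℝ V) (i j k l : Fin m × Bool) :
    unitR (e i) (e j) (e k) (e l) = Kc i j k l := by
  unfold unitR Kc
  simp only [orthonormal_iff_ite.1 e.orthonormal]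

theorem WrapA_unit_curv (c : ℝ) : AlgCurv (fun x y z w : V => c * unitR x y z w) := by
  refine ⟨fun x x' y z w => ?_, fun t x y z w => ?_, fun x y z w => ?_, fun x y z w => ?_,
    fun x y z w => ?_⟩
  · simp only [unitR, inner_add_left]; ring
  · simp only [unitR, real_inner_smul_left]; ring
  · simp only [unitR]; ring
  · simp only [unitR]
    rw [real_inner_comm x z, real_inner_comm y w, real_inner_comm y z, real_inner_comm x w]
    ring
  · simp only [unitR]
    rw [real_inner_comm x y, real_inner_comm x z, real_inner_comm y z]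
    ring

theorem WrapA_add_curv {R R' : V → V → V → V → ℝ} (h : AlgCurv R) (h' : AlgCurv R') :
    AlgCurv fun x y z w => R x y z w + R' x y z w := by
  refine ⟨fun x x' y z w => ?_, fun t x y z w => ?_, fun x y z w => ?_, fun x y z w => ?_,
    fun x y z w => ?_⟩
  · simp only [h.add, h'.add]; ring
  · simp only [h.smul, h'.smul]; ring
  · simp only [h.anti x y, h'.anti x y]; ring
  · simp only [h.pair x y z w, h'.pair x y z w]
  · linear_combination h.bianchi x y z w + h'.bianchi x y z w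

theorem WrapA_FKPos (e : OrthonormalBasis (Fin m × Bool) ℝ V) {R : V → V → V → V → ℝ}
    (hR : AlgCurv R) {κ : ℝ} (hO : OpLe R κ) :
    FKPos fun a b c d => Wrap_A e R a b c d - κ * Kc a b c d := by
  intro X _
  let f : Fin (Fintype.card ((Fin m × Bool) × (Fin m × Bool))) ≃ (Fin m × Bool) × (Fin m × Bool) :=
    (Fintype.equivFin _).symm
  have h := hO (Fintype.card ((Fin m × Bool) × (Fin m × Bool)))
    (fun a => X (f a).1 (f a).2 • e (f a).1) (fun a => e (f a).2)
  have h2 : ∀ u v : (Fin m × Bool) × (Fin m × Bool),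
      (R (X u.1 u.2 • e u.1) (e u.2) (X v.1 v.2 • e v.1) (e v.2) +
        κ * unitR (X u.1 u.2 • e u.1) (e u.2) (X v.1 v.2 • e v.1) (e v.2)) =
      - ((Wrap_A e R u.1 u.2 v.1 v.2 - κ * Kc u.1 u.2 v.1 v.2) * (X u.1 u.2 * X v.1 v.2)) := by
    intro u v
    have e1 : unitR (X u.1 u.2 • e u.1) (e u.2) (X v.1 v.2 • e v.1) (e v.2) =
        X u.1 u.2 * (X v.1 v.2 * Kc u.1 u.2 v.1 v.2) := by
      have hu := WrapA_unit_curv (V := V) 1
      have q1 := hu.smul (X u.1 u.2) (e u.1) (e u.2) (X v.1 v.2 • e v.1) (e v.2)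
      have q2 := WrapA_smul3 hu (X v.1 v.2) (e u.1) (e u.2) (e v.1) (e v.2)
      simp only [one_mul] at q1 q2
      rw [q1, q2, WrapA_unit_basis]
    rw [e1, hR.smul, WrapA_smul3 hR]
    unfold Wrap_A
    ring
  have h3 : ∑ a, ∑ b, (R (X (f a).1 (f a).2 • e (f a).1) (e (f a).2)
        (X (f b).1 (f b).2 • e (f b).1) (e (f b).2) +
        κ * unitR (X (f a).1 (f a).2 • e (f a).1) (e (f a).2)
        (X (f b).1 (f b).2 • e (f b).1) (e (f b).2)) =
      - ∑ i, ∑ j, ∑ k, ∑ l, (Wrap_A e R i j k l - κ * Kc i j k l) * (X i j * X k l) := by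
    simp only [h2]
    rw [f.sum_comp (fun u => ∑ b, -((Wrap_A e R u.1 u.2 (f b).1 (f b).2 -
      κ * Kc u.1 u.2 (f b).1 (f b).2) * (X u.1 u.2 * X (f b).1 (f b).2)))]
    have h4 : ∀ u : (Fin m × Bool) × (Fin m × Bool), ∑ b, -((Wrap_A e R u.1 u.2 (f b).1 (f b).2 -
      κ * Kc u.1 u.2 (f b).1 (f b).2) * (X u.1 u.2 * X (f b).1 (f b).2)) =
      - ∑ k, ∑ l, (Wrap_A e R u.1 u.2 k l - κ * Kc u.1 u.2 k l) * (X u.1 u.2 * X k l) := by
      intro u
      rw [f.sum_comp (fun v => -((Wrap_A e R u.1 u.2 v.1 v.2 -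
        κ * Kc u.1 u.2 v.1 v.2) * (X u.1 u.2 * X v.1 v.2))), Finset.sum_neg_distrib,
        Fintype.sum_prod_type]
    simp only [h4]
    rw [Finset.sum_neg_distrib, Fintype.sum_prod_type]
  rw [h3] at h
  linarith

theorem WrapA_one (hD : Decomp2Stm) (h1 : OneStm) (e : OrthonormalBasis (Fin m × Bool) ℝ V)
    {R : V → V → V → V → ℝ} (hR : AlgCurv R) (hO : OnePos e R 0) : RepG (Wrap_A e R) := by
  refine h1 _ _ (hD _ _ ?_ ?_)
  · have h := Wrap_Cv e hR 0
    simpa only [zero_mul, sub_zero] using h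
  · obtain ⟨P, hP⟩ := hO
    refine ⟨P, fun h hsym hPh => ?_⟩
    have q := hP h hsym hPh
    rw [Wrap_kind2, zero_mul, neg_zero] at q
    exact q

theorem WrapA_mixed (hS : SumStm) (hF : FKStm) (h1 : OneStm) (hD : Decomp2Stm)
    (e : OrthonormalBasis (Fin m × Bool) ℝ V) {R : V → V → V → V → ℝ} {κ : ℝ}
    (hM : Mixed e R κ) : RepG fun a b c d => Wrap_A e R a b c d - κ * Kc a b c d := by
  obtain ⟨p, R₀, S, hR₀, hO, hSS, hsum⟩ := hM
  have q1 := hF _ _ (Wrap_Cv e hR₀ κ) (WrapA_FKPos e hR₀ hO)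
  have q2 := WrapA_sum hS p (fun s => Wrap_A e (S s)) fun s => WrapA_one hD h1 e (hSS s).1 (hSS s).2
  have q3 := hS _ _ _ q1 q2
  convert q3 using 5
  rename_i a b c d
  simp only [Wrap_A, hsum, Finset.sum_neg_distrib]
  ring

theorem WrapA_key (hA : ArrStm) (e : OrthonormalBasis (Fin m × Bool) ℝ V)
    (R : V → V → V → V → ℝ) {s : ℝ} (hs : 0 ≤ s)
    (hR : RepG fun a b c d => Wrap_A e R a b c d - s * Kc a b c d) :
    roundGB m s ≤ (-1) ^ m * gbc e R := by
  have h1 := hA m _ hR s hs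
  simp only [sub_add_cancel] at h1
  rw [Wrap_round, Wrap_gbc]
  exact mul_le_mul_of_nonneg_left h1 (Wrap_c_pos m).le

theorem WrapA_of_OnePos (e : OrthonormalBasis (Fin m × Bool) ℝ V) {R : V → V → V → V → ℝ}
    (hR : AlgCurv R) {κ : ℝ} (hO : OnePos e R κ) : Mixed e R κ := by
  refine ⟨1, fun x y z w => -κ * unitR x y z w, fun _ x y z w => R x y z w + κ * unitR x y z w,
    WrapA_unit_curv _, fun n x y => ?_, fun _ => ⟨WrapA_add_curv hR (WrapA_unit_curv κ), ?_⟩,
    fun x y z w => ?_⟩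
  · refine (Finset.sum_eq_zero fun a _ => Finset.sum_eq_zero fun b _ => ?_).le
    ring
  · obtain ⟨P, hP⟩ := hO
    refine ⟨P, fun h hsym hPh => ?_⟩
    have q := hP h hsym hPh
    have q2 := Wrap_Bq_sub (Wrap_A e R) κ h hsym
    rw [Wrap_kind2] at q ⊢
    have q3 : (Wrap_A e fun x y z w => R x y z w + κ * unitR x y z w) =
        fun a b c d => Wrap_A e R a b c d - κ * Kc a b c d := by
      funext a b c d
      simp only [Wrap_A, WrapA_unit_basis]
      ring
    rw [q3, q2, zero_mul, neg_zero]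
    linarith
  · simp only [Finset.univ_unique, Finset.sum_const, Finset.card_singleton, one_smul]
    ring

end

theorem wrapA : WrapA := by
  intro hA hS hF h1 hD hT
  have part1 : ∀ (m : ℕ) (V : Type) [NormedAddCommGroup V] [InnerProductSpace ℝ V]
      (e : OrthonormalBasis (Fin m × Bool) ℝ V) (R : V → V → V → V → ℝ), AlgCurv R →
      (∀ κ : ℝ, 0 ≤ κ → Mixed e R κ → roundGB m κ ≤ (-1) ^ m * gbc e R) ∧
      (∀ κ : ℝ, 0 ≤ κ → OnePos e R κ → Mixed e R κ) ∧
      (OnePosStrict e R → 0 < (-1) ^ m * gbc e R) := by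
    intro m V _ _ e R hR
    refine ⟨fun κ hκ hM => WrapA_key hA e R hκ (WrapA_mixed hS hF h1 hD e hM),
      fun κ _ hO => WrapA_of_OnePos e hR hO, fun hO => ?_⟩
    obtain ⟨P, hP⟩ := hO
    obtain ⟨s, hs, hO'⟩ := hT (Fin m × Bool) (Wrap_A e R) ⟨P, fun h hsym hPh hne => by
      have q := hP h hsym hPh hne
      rwa [Wrap_kind2] at q⟩
    exact (roundGB_pos hs).trans_le (WrapA_key hA e R hs.le
      (h1 _ _ (hD _ _ (Wrap_Cv e hR s) hO')))
  refine ⟨part1, fun m M _ μ K hint => ?_⟩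
  have hint' : Integrable (fun p => (-1 : ℝ) ^ m * K.gb p) μ := hint.const_mul _
  refine ⟨fun κ hκ hO => ?_, fun hO => ?_⟩
  · have hr : 0 ≤ roundGB m κ := by
      have := Real.pi_pos
      unfold roundGB
      positivity
    have hp : ∀ p, roundGB m κ ≤ (-1 : ℝ) ^ m * K.gb p := fun p =>
      (part1 m (K.V p) (K.e p) (K.R p) (K.curv p)).1 κ hκ (hO p)
    rw [← integral_const_mul, ofReal_integral_eq_lintegral_ofReal hint'
      (Filter.Eventually.of_forall fun p => hr.trans (hp p)), ← lintegral_const]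
    exact lintegral_mono fun p => ENNReal.ofReal_le_ofReal (hp p)
  · have hr : 0 ≤ roundGB m 0 := by
      have := Real.pi_pos
      unfold roundGB
      positivity
    have hp : ∀ p, 0 ≤ (-1 : ℝ) ^ m * K.gb p := fun p =>
      hr.trans ((part1 m (K.V p) (K.e p) (K.R p) (K.curv p)).1 0 le_rfl (hO p))
    rw [← integral_const_mul]
    refine ⟨integral_nonneg hp, fun hμ => ?_⟩
    rw [integral_pos_iff_support_of_nonneg hp hint']
    refine pos_iff_ne_zero.2 fun h3 => hμ ?_
    refine measure_mono_null ?_ h3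
    intro p hps
    have h4 : 0 < (-1 : ℝ) ^ m * K.gb p :=
      (part1 m (K.V p) (K.e p) (K.R p) (K.curv p)).2.2 hps
    simp only [Function.mem_support]
    exact h4.ne'

end Pool.Agent.Helper27.HZ
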