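import Pool.Agent.Helper27.HZ.Stm2
import Pool.Agent.Helper27.HY.Wrap

/-!
# Sums of causal second fundamental forms: from arrays to tensors and integrals
-/

set_option autoImplicit false

open scoped BigOperators

namespace Pool.Agent.Helper27.HZ

open Pool.Agent.Helper27.HY (Bf gbJ Cv Bq OneP Kc Rep kind2 OnePos OnePosStrict Wrap_A Wrap_Cv
  Wrap_gbc Wrap_round Wrap_c_pos)
open Pool.Agent.W666.GB MeasureTheory

section

variable {V : Type*} [NormedAddCommGroup V] [InnerProductSpace ℝ V]
variable {W : Type*} [NormedAddCommGroup W] [InnerProductSpace ℝ W]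

theorem SymMap.zero_left {β : V → V → W} (h : SymMap β) (y : V) : β 0 y = 0 := by
  have := h.smul 0 0 y
  rwa [zero_smul, zero_smul] at this

theorem SymMap.sum_left {β : V → V → W} (h : SymMap β) {ι : Type*} (s : Finset ι) (x : ι → ℝ)
    (v : ι → V) (y : V) : β (∑ i ∈ s, x i • v i) y = ∑ i ∈ s, x i • β (v i) y := by
  classical
  induction s using Finset.induction_on with
  | empty => simp only [Finset.sum_empty]; exact h.zero_left y
  | insert a s ha ih => rw [Finset.sum_insert ha, Finset.sum_insert ha, h.add, h.smul, ih]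

theorem SymMap.sum_sum {β : V → V → W} (h : SymMap β) {ι : Type*} [Fintype ι] (x : ι → ℝ)
    (v : ι → V) : β (∑ i, x i • v i) (∑ i, x i • v i) = ∑ i, ∑ j, (x i * x j) • β (v i) (v j) := by
  rw [h.sum_left]
  refine Finset.sum_congr rfl fun i _ => ?_
  rw [← h.symm, h.sum_left, Finset.smul_sum]
  refine Finset.sum_congr rfl fun j _ => ?_
  rw [smul_smul, ← h.symm]

end

section

variable {m : ℕ} {V : Type*} [NormedAddCommGroup V] [InnerProductSpace ℝ V]

/-- components of one causal form -/
theorem WrapD_causal (e : OrthonormalBasis (Fin m × Bool) ℝ V) {S : V → V → V → V → ℝ}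
    (hS : Causal S) : RepG (Wrap_A e S) := by
  obtain ⟨N, b, β, hb, hβ, hc, hSe⟩ := hS
  have e1 : ∀ x : Fin m × Bool → ℝ, ∑ i, ∑ j, b (e i) (e j) * (x i * x j) =
      b (∑ i, x i • e i) (∑ i, x i • e i) := by
    intro x
    rw [hb.sum_sum]
    refine Finset.sum_congr rfl fun i _ => Finset.sum_congr rfl fun j _ => ?_
    rw [smul_eq_mul, mul_comm]
  have e2 : ∀ (x : Fin m × Bool → ℝ) (k : Fin N), ∑ i, ∑ j, (β (e i) (e j)) k * (x i * x j) =
      (β (∑ i, x i • e i) (∑ i, x i • e i)) k := by
    intro x k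
    rw [hβ.sum_sum]
    simp only [PiLp.smul_apply, WithLp.ofLp_sum, Finset.sum_apply, smul_eq_mul]
    refine Finset.sum_congr rfl fun i _ => Finset.sum_congr rfl fun j _ => ?_
    rw [mul_comm]
  refine ⟨1, N, 0, fun _ => Matrix.of fun i j => b (e i) (e j),
    fun _ k => Matrix.of fun i j => (β (e i) (e j)) k, fun a => Fin.elim0 a, ?_, ?_, ?_, ?_, ?_, ?_⟩
  · intro _ i j
    simp only [Matrix.of_apply]
    exact (hb.symm _ _).symm
  · intro _ k i j
    simp only [Matrix.of_apply]
    rw [hβ.symm]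
  · intro a
    exact Fin.elim0 a
  · intro _ x
    simp only [Matrix.of_apply]
    rw [e1]
    exact (hc _).1
  · intro _ x
    simp only [Matrix.of_apply]
    rw [e1]
    simp only [e2]
    have h1 := (hc (∑ i, x i • e i)).2
    have h2 := (hc (∑ i, x i • e i)).1
    have h3 : ∑ k, ((β (∑ i, x i • e i) (∑ i, x i • e i)) k) ^ 2 =
        ‖β (∑ i, x i • e i) (∑ i, x i • e i)‖ ^ 2 := by
      rw [EuclideanSpace.norm_sq_eq]
      refine Finset.sum_congr rfl fun k _ => ?_
      rw [Real.norm_eq_abs, sq_abs]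
    rw [h3]
    exact pow_le_pow_left₀ (norm_nonneg _) h1 2
  · intro i j k l
    simp only [Wrap_A, hSe, extR, Bf, Matrix.of_apply, Fin.sum_univ_one, Finset.univ_eq_empty,
      Finset.sum_empty, add_zero, PiLp.inner_apply, Real.inner_apply]
    have f1 : ∑ a, (β (e i) (e j)) a * (β (e k) (e l)) a =
        ∑ a, (β (e k) (e l)) a * (β (e i) (e j)) a :=
      Finset.sum_congr rfl fun a _ => mul_comm _ _
    have f2 : ∑ a, (β (e k) (e j)) a * (β (e i) (e l)) a =
        ∑ a, (β (e i) (e l)) a * (β (e k) (e j)) a :=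
      Finset.sum_congr rfl fun a _ => mul_comm _ _
    linarith

theorem WrapD_sum4 {J : Type} [Fintype J] (f : J → J → J → J → ℝ) :
    ∑ a : J × J, ∑ b : J × J, f a.1 a.2 b.1 b.2 = ∑ i, ∑ j, ∑ k, ∑ l, f i j k l := by
  simp only [Fintype.sum_prod_type]

/-- the part with curvature operator at most `-κ` -/
theorem WrapD_op (e : OrthonormalBasis (Fin m × Bool) ℝ V) {R : V → V → V → V → ℝ} {κ : ℝ}
    (hR : AlgCurv R) (h : OpLe R κ) : FKPos fun a b c d => Wrap_A e R a b c d - κ * Kc a b c d := by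
  intro X _
  have hsm : ∀ (t s : ℝ) (x y z w : V), R (t • x) y (s • z) w = t * s * R x y z w := by
    intro t s x y z w
    rw [hR.smul, ← hR.pair, hR.smul, ← hR.pair]
    ring
  have hK : ∀ i j k l : Fin m × Bool, unitR (e i) (e j) (e k) (e l) = Kc i j k l := by
    intro i j k l
    simp only [unitR, Kc, orthonormal_iff_ite.1 e.orthonormal]
  have hu : ∀ (t s : ℝ) (x y z w : V), unitR (t • x) y (s • z) w = t * s * unitR x y z w := by
    intro t s x y z w
    simp only [unitR, inner_smul_left, inner_smul_right, RCLike.conj_to_real]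
    ring
  let ε := Fintype.equivFin ((Fin m × Bool) × (Fin m × Bool))
  have h1 := h (Fintype.card ((Fin m × Bool) × (Fin m × Bool)))
    (fun a => X (ε.symm a).1 (ε.symm a).2 • e (ε.symm a).1) (fun a => e (ε.symm a).2)
  simp only [hsm, hu, hK] at h1
  have h2 : ∑ a : (Fin m × Bool) × (Fin m × Bool), ∑ b : (Fin m × Bool) × (Fin m × Bool),
      (X a.1 a.2 * X b.1 b.2 * R (e a.1) (e a.2) (e b.1) (e b.2) +
        κ * (X a.1 a.2 * X b.1 b.2 * Kc a.1 a.2 b.1 b.2)) ≤ 0 := by
    refine le_trans (le_of_eq ?_) h1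
    rw [← ε.symm.sum_comp]
    refine Finset.sum_congr rfl fun a _ => ?_
    rw [← ε.symm.sum_comp]
  rw [WrapD_sum4 fun i j k l => X i j * X k l * R (e i) (e j) (e k) (e l) +
        κ * (X i j * X k l * Kc i j k l)] at h2
  have h3 : ∑ i, ∑ j, ∑ k, ∑ l, (Wrap_A e R i j k l - κ * Kc i j k l) * (X i j * X k l) =
      - ∑ i, ∑ j, ∑ k, ∑ l, (X i j * X k l * R (e i) (e j) (e k) (e l) +
        κ * (X i j * X k l * Kc i j k l)) := by
    simp only [← Finset.sum_neg_distrib]
    refine Finset.sum_congr rfl fun i _ => Finset.sum_congr rfl fun j _ =>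
      Finset.sum_congr rfl fun k _ => Finset.sum_congr rfl fun l _ => ?_
    unfold Wrap_A
    ring
  rw [h3]
  linarith

theorem WrapD_point (hA : ArrStm) (hSum : SumStm) (hFK : FKStm)
    (e : OrthonormalBasis (Fin m × Bool) ℝ V) (R : V → V → V → V → ℝ) (κ : ℝ) (hκ : 0 ≤ κ)
    (h : CausalSum R κ) : roundGB m κ ≤ (-1) ^ m * gbc e R := by
  obtain ⟨p, R₀, S, hR₀, hop, hS, hRe⟩ := h
  have hF : RepG fun a b c d => Wrap_A e R₀ a b c d - κ * Kc a b c d :=
    hFK _ _ (Wrap_Cv e hR₀ κ) (WrapD_op e hR₀ hop)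
  have hall : ∀ (p : ℕ) (S : Fin p → V → V → V → V → ℝ), (∀ s, Causal (S s)) →
      RepG fun a b c d => (Wrap_A e R₀ a b c d - κ * Kc a b c d) + ∑ s, Wrap_A e (S s) a b c d := by
    intro p
    induction p with
    | zero =>
      intro S _
      simpa using hF
    | succ p ih =>
      intro S hS
      have h1 := hSum _ _ _ (ih (fun s => S s.castSucc) fun s => hS _)
        (WrapD_causal e (hS (Fin.last p)))
      convert h1 using 5
      rw [Fin.sum_univ_castSucc, add_assoc]
  have h1 := hA m _ (hall p S hS) κ hκ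
  rw [Wrap_round, Wrap_gbc]
  refine mul_le_mul_of_nonneg_left (h1.trans (le_of_eq ?_)) (Wrap_c_pos m).le
  congr 1
  funext a b c d
  simp only [Wrap_A, hRe, Finset.sum_neg_distrib]
  ring

theorem unitR_algCurv (V : Type*) [NormedAddCommGroup V] [InnerProductSpace ℝ V] :
    AlgCurv (unitR (V := V)) := by
  refine ⟨fun x x' y z w => ?_, fun t x y z w => ?_, fun x y z w => ?_, fun x y z w => ?_,
    fun x y z w => ?_⟩
  · simp only [unitR, inner_add_left]
    ring
  · simp only [unitR, inner_smul_left, RCLike.conj_to_real]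
    ring
  · simp only [unitR]
    ring
  · simp only [unitR]
    rw [real_inner_comm x z, real_inner_comm y w, real_inner_comm y z, real_inner_comm x w]
    ring
  · simp only [unitR]
    rw [real_inner_comm z x, real_inner_comm y x, real_inner_comm z y]
    ring

end

theorem wrapD : WrapD := by
  intro hA hSum hFK
  refine ⟨fun m V _ _ e R κ hκ h => WrapD_point hA hSum hFK e R κ hκ h, ?_, ?_⟩
  · intro m V W _ _ _ _ _ _ R R₁ β c κ hR₁ hop hβ hκ hκc hbd hRe
    have hck : 0 ≤ c - κ := sub_nonneg.2 hκc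
    have hu := unitR_algCurv V
    refine ⟨1, fun x y z w => R₁ x y z w + (c - κ) * unitR x y z w,
      fun _ x y z w => extR β x y z w - (c - κ) * unitR x y z w, ?_, ?_, ?_, ?_⟩
    · refine ⟨fun x x' y z w => ?_, fun t x y z w => ?_, fun x y z w => ?_, fun x y z w => ?_,
        fun x y z w => ?_⟩
      · rw [hR₁.add, hu.add]; ring
      · rw [hR₁.smul, hu.smul]; ring
      · rw [hR₁.anti, hu.anti]; ring
      · rw [hR₁.pair, hu.pair]
      · linear_combination hR₁.bianchi x y z w + (c - κ) * hu.bianchi x y z w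
    · intro n x y
      refine le_trans (le_of_eq ?_) (hop n x y)
      refine Finset.sum_congr rfl fun a _ => Finset.sum_congr rfl fun b _ => ?_
      ring
    · intro _
      let o := stdOrthonormalBasis ℝ W
      refine ⟨Module.finrank ℝ W, fun x y => Real.sqrt (c - κ) * inner ℝ x y,
        fun x y => o.repr (β x y), ⟨?_, ?_, ?_⟩, ⟨?_, ?_, ?_⟩, ?_, ?_⟩
      · intro x x' y
        rw [inner_add_left]; ring
      · intro t x y
        rw [inner_smul_left, RCLike.conj_to_real, smul_eq_mul]; ring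
      · intro x y
        rw [real_inner_comm]
      · intro x x' y
        rw [hβ.add, map_add]
      · intro t x y
        rw [hβ.smul, map_smul]
      · intro x y
        rw [hβ.symm]
      · intro x
        have h1 : Real.sqrt (c - κ) * inner ℝ x x = Real.sqrt (c - κ) * ‖x‖ ^ 2 := by
          rw [real_inner_self_eq_norm_sq]
        have h2 : 0 ≤ Real.sqrt (c - κ) * ‖x‖ ^ 2 := by positivity
        show 0 ≤ Real.sqrt (c - κ) * inner ℝ x x ∧
          ‖o.repr (β x x)‖ ≤ Real.sqrt (c - κ) * inner ℝ x x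
        rw [h1, LinearIsometryEquiv.norm_map]
        refine ⟨h2, ?_⟩
        refine le_of_sq_le_sq ?_ h2
        rw [mul_pow, Real.sq_sqrt hck]
        calc ‖β x x‖ ^ 2 ≤ (c - κ) * ‖x‖ ^ 4 := hbd x
          _ = (c - κ) * (‖x‖ ^ 2) ^ 2 := by ring
      · intro x y z w
        simp only [extR, unitR, LinearIsometryEquiv.inner_map_map, Real.inner_apply]
        have h3 := Real.mul_self_sqrt hck
        linear_combination (-(inner ℝ x z * inner ℝ y w - inner ℝ x w * inner ℝ y z)) * (-h3)
    · intro x y z w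
      simp only [Fin.sum_univ_one]
      rw [hRe]
      ring
  · intro m M _ μ K hint κ hκ hC
    have hint' : Integrable (fun p => (-1 : ℝ) ^ m * K.gb p) μ := hint.const_mul _
    have hr : 0 ≤ roundGB m κ := by
      have := Real.pi_pos
      unfold roundGB
      positivity
    have hp : ∀ p, roundGB m κ ≤ (-1 : ℝ) ^ m * K.gb p := fun p =>
      WrapD_point hA hSum hFK (K.e p) (K.R p) κ hκ (hC p)
    rw [← integral_const_mul]
    refine ⟨integral_nonneg fun p => hr.trans (hp p), ?_⟩
    rw [ofReal_integral_eq_lintegral_ofReal hint'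
      (Filter.Eventually.of_forall fun p => hr.trans (hp p)), ← lintegral_const]
    exact lintegral_mono fun p => ENNReal.ofReal_le_ofReal (hp p)

end Pool.Agent.Helper27.HZ
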