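import Pool.Agent.Helper27.HZ.NV
import Pool.Agent.Helper27.HZ.Sum
import Pool.Agent.Helper27.HZ.WrapA
import Pool.Agent.Helper27.HZ.WrapD
import Pool.Agent.Helper20.HZ.FK
import Pool.Agent.Helper27.HY.Arr

/-!
# The final theorems
-/

set_option autoImplicit false

namespace Pool.Agent.Helper27.HZ

/-- the theorem for arrays -/
theorem arr : ArrStm := fun m R h s hs =>
  Pool.Agent.Helper27.HY.sharp (fun _ R => RepG R)
    (fun _ ι hι R hR => restr _ _ ι hι R hR) sign_rep m R h s hs

/-- the first final theorem -/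
theorem finalA : FinalA :=
  wrapA arr sum Pool.Agent.Helper20.HZ.fk Pool.Agent.Helper20.HZ.one
    Pool.Agent.Helper27.HY.decomp2 Pool.Agent.Helper32.HY.strict

/-- the second final theorem -/
theorem finalD : FinalD := wrapD arr sum Pool.Agent.Helper20.HZ.fk

end Pool.Agent.Helper27.HZ
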