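import Pool.Agent.Helper27.HZ.Stm

/-!
# Hermitian matrices: decomposition, simultaneous diagonalisation, decrease of the trace
-/

set_option autoImplicit false
set_option linter.unusedSectionVars false

open scoped BigOperators ComplexOrder

namespace Pool.Agent.Helper27.HZ

variable {J : Type} [Fintype J] [DecidableEq J]

theorem hf_dot (M : Matrix J J ℂ) (x : J → ℂ) : hf M x = star x ⬝ᵥ M.mulVec x := by
  simp only [hf, dotProduct, Matrix.mulVec, Finset.mul_sum, Pi.star_apply]
  exact Finset.sum_congr rfl fun _ _ => Finset.sum_congr rfl fun _ _ => by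
    simp only [starRingEnd_apply]; ring

theorem hf_hc (T M : Matrix J J ℂ) (x : J → ℂ) : hf (hc T M) x = hf M (T.mulVec x) := by
  rw [hf_dot, hf_dot, hc, ← Matrix.mulVec_mulVec, ← Matrix.mulVec_mulVec,
    Matrix.dotProduct_mulVec (star x) T.conjTranspose, Matrix.star_mulVec]

theorem hm_iff (M : Matrix J J ℂ) : Hm M ↔ M.IsHermitian := by
  constructor
  · intro h
    ext i j
    rw [Matrix.conjTranspose_apply, h i j]
    simp
  · intro h i j
    have := congrFun (congrFun h j) i
    rw [Matrix.conjTranspose_apply] at this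
    rw [← this]
    rfl

theorem hf_im {M : Matrix J J ℂ} (h : Hm M) (x : J → ℂ) : (hf M x).im = 0 := by
  have h1 : (starRingEnd ℂ) (hf M x) = hf M x := by
    unfold hf
    rw [map_sum]
    simp only [map_sum, map_mul, Complex.conj_conj]
    rw [Finset.sum_comm]
    refine Finset.sum_congr rfl fun i _ => Finset.sum_congr rfl fun j _ => ?_
    rw [h i j, Complex.conj_conj]
    ring
  exact Complex.conj_eq_iff_im.1 h1

theorem psd (J : Type) [Fintype J] [DecidableEq J] : PsdStm J := by
  intro M hM hp
  have hP : M.PosSemidef := by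
    refine Matrix.PosSemidef.of_dotProduct_mulVec_nonneg ((hm_iff M).1 hM) fun x => ?_
    rw [← hf_dot, Complex.le_def]
    exact ⟨by simpa [hq] using hp x, by simp [hf_im hM x]⟩
  obtain ⟨m, v, hv⟩ := Matrix.posSemidef_iff_eq_sum_vecMulVec.1 hP
  refine ⟨m, v, fun i j => ?_⟩
  rw [hv, Matrix.sum_apply]
  simp [Matrix.vecMulVec_apply]

theorem exists_root' (Q : Matrix J J ℂ) (hs : Hm Q) (hp : ∀ x, x ≠ 0 → 0 < hq Q x) :
    ∃ B : Matrix J J ℂ, IsUnit B.det ∧ B.conjTranspose * Q * B = 1 := by
  have h : Q.PosDef := by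
    refine Matrix.PosDef.of_dotProduct_mulVec_pos ((hm_iff Q).1 hs) fun x hx => ?_
    rw [← hf_dot, Complex.lt_def]
    exact ⟨by simpa [hq] using hp x hx, by simp [hf_im hs x]⟩
  open scoped MatrixOrder ComplexOrder in
  obtain ⟨A, hA⟩ := CStarAlgebra.nonneg_iff_eq_star_mul_self.mp h.posSemidef.nonneg
  have hA' : Q = A.conjTranspose * A := by
    rw [hA]
    simp [Matrix.star_eq_conjTranspose]
  have hd : Q.det ≠ 0 := h.det_pos.ne'
  have hd2 : A.det ≠ 0 := by
    intro h0
    rw [hA', Matrix.det_mul, h0, mul_zero] at hd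
    exact hd rfl
  have hu : IsUnit A.det := isUnit_iff_ne_zero.2 hd2
  refine ⟨A⁻¹, ?_, ?_⟩
  · rw [Matrix.det_nonsing_inv]
    exact hu.ringInverse
  · rw [hA', Matrix.conjTranspose_nonsing_inv, ← Matrix.mul_assoc,
      Matrix.nonsing_inv_mul _ (by rw [Matrix.det_conjTranspose]; exact hu.star), Matrix.one_mul,
      Matrix.mul_nonsing_inv _ hu]

theorem hc_add_smul (T X P : Matrix J J ℂ) (c : ℂ) :
    hc T (X + c • P) = hc T X + c • hc T P := by
  unfold hc
  rw [Matrix.mul_add, Matrix.add_mul, Matrix.mul_smul, Matrix.smul_mul]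

theorem simul (J : Type) [Fintype J] [DecidableEq J] : SimulStm J := by
  intro Y hY
  set X : Matrix J J ℂ := (2⁻¹ : ℂ) • (Y + Y.conjTranspose) with hX
  set P : Matrix J J ℂ := (-(Complex.I / 2)) • (Y - Y.conjTranspose) with hP
  have hYX : Y = X + Complex.I • P := by
    ext i j
    simp only [hX, hP, Matrix.add_apply, Matrix.smul_apply, Matrix.sub_apply,
      Matrix.conjTranspose_apply, smul_eq_mul]
    have := Complex.I_mul_I
    linear_combination ((1/2) * (Y i j - star (Y j i))) * this
  have hXh : Hm X := by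
    intro i j
    simp only [hX, Matrix.add_apply, Matrix.smul_apply, Matrix.conjTranspose_apply, smul_eq_mul,
      map_mul, map_add, map_inv₀, starRingEnd_apply, star_star, star_ofNat]
    ring
  have hPh : Hm P := by
    intro i j
    simp only [hP, Matrix.sub_apply, Matrix.smul_apply, Matrix.conjTranspose_apply, smul_eq_mul,
      starRingEnd_apply, star_star, star_neg, star_sub, star_mul', star_div₀, star_ofNat]
    have : star Complex.I = -Complex.I := Complex.conj_I
    rw [this]
    ring
  have hadd : ∀ x, hf Y x = hf X x + Complex.I * hf P x := by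
    intro x
    unfold hf
    rw [Finset.mul_sum, ← Finset.sum_add_distrib]
    refine Finset.sum_congr rfl fun i _ => ?_
    rw [Finset.mul_sum, ← Finset.sum_add_distrib]
    refine Finset.sum_congr rfl fun j _ => ?_
    have := congrFun (congrFun hYX i) j
    rw [this]
    simp only [Matrix.add_apply, Matrix.smul_apply, smul_eq_mul]
    ring
  have hPp : ∀ x, x ≠ 0 → 0 < hq P x := by
    intro x hx
    have h1 := hY x hx
    unfold hi at h1
    rw [hadd x, Complex.add_im, hf_im hXh] at h1
    unfold hq
    simpa using h1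
  obtain ⟨B, hB, hBP⟩ := exists_root' P hPh hPp
  have hH : (hc B X).IsHermitian := by
    unfold hc Matrix.IsHermitian
    rw [Matrix.conjTranspose_mul, Matrix.conjTranspose_mul, Matrix.conjTranspose_conjTranspose,
      Matrix.mul_assoc, ((hm_iff X).1 hXh : X.conjTranspose = X)]
  have h1 := hH.conjStarAlgAut_star_eigenvectorUnitary
  set U : Matrix J J ℂ := (hH.eigenvectorUnitary : Matrix J J ℂ) with hU
  have h2 : U.conjTranspose * hc B X * U = Matrix.diagonal (fun j => (hH.eigenvalues j : ℂ)) := by
    rw [Unitary.conjStarAlgAut_star_apply] at h1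
    simpa [hU, Matrix.star_eq_conjTranspose, Function.comp_def] using h1
  have h3 : U.conjTranspose * U = 1 := by
    have := Unitary.coe_star_mul_self hH.eigenvectorUnitary
    simpa [hU, Matrix.star_eq_conjTranspose] using this
  refine ⟨B * U, hH.eigenvalues, ?_, ?_⟩
  · rw [Matrix.det_mul]
    refine mul_ne_zero hB.ne_zero fun h0 => ?_
    have h4 : (U.conjTranspose * U).det = 1 := by rw [h3, Matrix.det_one]
    rw [Matrix.det_mul, h0, mul_zero] at h4
    exact zero_ne_one h4
  · have e1 : hc (B * U) X = Matrix.diagonal (fun j => (hH.eigenvalues j : ℂ)) := by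
      rw [← h2]
      unfold hc
      rw [Matrix.conjTranspose_mul]
      simp only [Matrix.mul_assoc]
    have e2 : hc (B * U) P = 1 := by
      unfold hc
      have : (B * U).conjTranspose * P * (B * U) =
          U.conjTranspose * (B.conjTranspose * P * B) * U := by
        rw [Matrix.conjTranspose_mul]
        simp only [Matrix.mul_assoc]
      rw [this, hBP, Matrix.mul_one, h3]
    have e3 : hc (B * U) Y = hc (B * U) X + Complex.I • hc (B * U) P := by
      conv_lhs => rw [hYX]
      exact hc_add_smul _ _ _ _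
    rw [e3, e1, e2]
    ext i j
    by_cases hij : i = j
    · subst hij
      simp
    · simp [hij]

theorem nn_sub (b y : J → ℂ) : nn (b - y) = nn b - 2 * (star b ⬝ᵥ y).re + nn y := by
  unfold nn dotProduct
  rw [Complex.re_sum, Finset.mul_sum, ← Finset.sum_sub_distrib, ← Finset.sum_add_distrib]
  refine Finset.sum_congr rfl fun i _ => ?_
  simp only [Pi.sub_apply, Pi.star_apply, Complex.normSq_apply, Complex.sub_re, Complex.sub_im,
    Complex.mul_re, Complex.star_def, Complex.conj_re, Complex.conj_im]
  ring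

theorem nn_nonneg (b : J → ℂ) : 0 ≤ nn b := Finset.sum_nonneg fun _ _ => Complex.normSq_nonneg _

theorem nn_eq_zero {b : J → ℂ} (h : nn b ≤ 0) : b = 0 := by
  funext i
  have h1 := (Finset.sum_eq_zero_iff_of_nonneg
    (fun i _ => Complex.normSq_nonneg (b i))).1 (le_antisymm h (nn_nonneg b)) i (Finset.mem_univ i)
  exact Complex.normSq_eq_zero.1 h1

theorem nn_dot (z : J → ℂ) : star z ⬝ᵥ z = (nn z : ℂ) := by
  unfold nn dotProduct
  rw [Complex.ofReal_sum]
  refine Finset.sum_congr rfl fun i _ => ?_
  rw [Pi.star_apply, Complex.star_def, Complex.normSq_eq_conj_mul_self]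

theorem decr (J : Type) [Fintype J] [DecidableEq J] : DecrStm J := by
  intro p A0 Y Q T hs h0 hQ hP hT hpos
  have key : ∀ b : J → ℂ, nn (T.conjTranspose.mulVec b) ≤ nn b ∧
      (0 < hq Q b → nn (T.conjTranspose.mulVec b) < nn b) := by
    intro b
    set z := T.conjTranspose.mulVec b with hz
    set y := T.mulVec z with hy
    have f1 : star b ⬝ᵥ y = (nn z : ℂ) := by
      rw [hy, Matrix.dotProduct_mulVec, ← nn_dot]
      congr 1
      rw [hz, Matrix.star_mulVec, Matrix.conjTranspose_conjTranspose]
    have f2 : hi Y y = nn z := by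
      rw [← hT z]
      unfold hi
      rw [hf_hc]
    have f3 := hP y
    rw [f2] at f3
    have f4 := hQ y
    have f5 := nn_sub b y
    rw [f1, Complex.ofReal_re] at f5
    have f6 := nn_nonneg (b - y)
    have f9 : nn z ≤ nn b := by linarith
    refine ⟨f9, fun hb => ?_⟩
    by_contra hc'
    push Not at hc'
    have f7 : nn (b - y) ≤ 0 := by linarith
    have f8 : b = y := sub_eq_zero.1 (nn_eq_zero f7)
    rw [← f8] at f3
    linarith
  have dec : ∀ s, (hc T (A0 s)).trace.re ≤ (A0 s).trace.re ∧
      (0 < hpr Q (A0 s) → (hc T (A0 s)).trace.re < (A0 s).trace.re) := by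
    intro s
    obtain ⟨m, a, ha⟩ := psd J (A0 s) (hs s) (h0 s)
    have tr1 : (A0 s).trace.re = ∑ k, nn (a k) := by
      simp only [Matrix.trace, Matrix.diag_apply, ha, Complex.re_sum, nn]
      rw [Finset.sum_comm]
      refine Finset.sum_congr rfl fun k _ => Finset.sum_congr rfl fun i _ => ?_
      rw [Complex.mul_conj, Complex.ofReal_re]
    have hAm : A0 s = ∑ k, Matrix.vecMulVec (a k) (star (a k)) := by
      ext i j
      rw [ha, Matrix.sum_apply]
      simp [Matrix.vecMulVec_apply]
    have tr2 : (hc T (A0 s)).trace.re = ∑ k, nn (T.conjTranspose.mulVec (a k)) := by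
      rw [hAm]
      unfold hc
      rw [Matrix.mul_sum, Matrix.sum_mul, Matrix.trace_sum, Complex.re_sum]
      refine Finset.sum_congr rfl fun k _ => ?_
      rw [Matrix.mul_vecMulVec, Matrix.vecMulVec_mul]
      have e : Matrix.vecMul (star (a k)) T = star (T.conjTranspose.mulVec (a k)) := by
        rw [Matrix.star_mulVec, Matrix.conjTranspose_conjTranspose]
      rw [e]
      simp only [Matrix.trace, Matrix.diag_apply, Matrix.vecMulVec_apply, Pi.star_apply,
        Complex.re_sum, nn]
      refine Finset.sum_congr rfl fun i _ => ?_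
      rw [Complex.star_def, Complex.mul_conj, Complex.ofReal_re]
    have pr1 : hpr Q (A0 s) = ∑ k, hq Q (a k) := by
      unfold hpr hq hf
      rw [← Complex.re_sum]
      congr 1
      simp only [ha, map_sum, map_mul, Complex.conj_conj, Finset.mul_sum]
      have e : ∀ i, ∑ j, ∑ k, Q i j * ((starRingEnd ℂ) (a k i) * a k j) =
          ∑ k, ∑ j, Q i j * ((starRingEnd ℂ) (a k i) * a k j) := fun i => Finset.sum_comm
      simp only [e]
      exact Finset.sum_comm
    rw [tr1, tr2, pr1]
    refine ⟨Finset.sum_le_sum fun k _ => (key (a k)).1, fun hp => ?_⟩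
    obtain ⟨k, -, hk⟩ : ∃ k ∈ Finset.univ, 0 < hq Q (a k) := by
      by_contra hc'
      push Not at hc'
      exact absurd hp (not_lt.2 (Finset.sum_nonpos hc'))
    exact Finset.sum_lt_sum (fun k _ => (key (a k)).1) ⟨k, Finset.mem_univ k, (key (a k)).2 hk⟩
  obtain ⟨s, -, hsp⟩ : ∃ s ∈ Finset.univ, 0 < hpr Q (A0 s) := by
    by_contra hc'
    push Not at hc'
    exact absurd hpos (not_lt.2 (Finset.sum_nonpos hc'))
  exact Finset.sum_lt_sum (fun s _ => (dec s).1) ⟨s, Finset.mem_univ s, (dec s).2 hsp⟩

end Pool.Agent.Helper27.HZ
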