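import Pool.Agent.Helper27.HZ.Stm

/-!
# The induction (Hermitian version)
-/

set_option autoImplicit false
set_option linter.unusedSectionVars false

open scoped BigOperators
open MvPolynomial

namespace Pool.Agent.Helper27.HZ

theorem Out.ang (φ : ℝ) (h : Real.sin φ ≠ 0) :
    Complex.exp (Complex.I * (φ : ℂ)) / (Real.sin φ : ℂ) =
      ((Real.cos φ / Real.sin φ : ℝ) : ℂ) + Complex.I := by
  have h' : (Complex.sin (φ : ℂ)) ≠ 0 := by
    rw [← Complex.ofReal_sin]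
    exact_mod_cast h
  rw [mul_comm, Complex.exp_mul_I]
  push_cast
  field_simp

section
variable {J : Type} [Fintype J] [DecidableEq J]

theorem Out.hf_eq (M : Matrix J J ℂ) (x : J → ℂ) :
    hf M x = dotProduct (star x) (M.mulVec x) := by
  unfold hf
  simp only [dotProduct, Matrix.mulVec, Finset.mul_sum, Pi.star_apply]
  refine Finset.sum_congr rfl fun i _ => Finset.sum_congr rfl fun j _ => ?_
  rw [← starRingEnd_apply]
  ring

theorem Out.hf_hc (T M : Matrix J J ℂ) (x : J → ℂ) : hf (hc T M) x = hf M (T.mulVec x) := by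
  rw [Out.hf_eq, Out.hf_eq, hc, Matrix.star_mulVec, ← Matrix.dotProduct_mulVec,
    Matrix.mulVec_mulVec, Matrix.mulVec_mulVec, Matrix.mul_assoc]

theorem Out.hm_iff (M : Matrix J J ℂ) : Hm M ↔ M.conjTranspose = M := by
  constructor
  · intro h
    ext i j
    rw [Matrix.conjTranspose_apply, ← starRingEnd_apply, ← h j i]
  · intro h i j
    rw [starRingEnd_apply, ← Matrix.conjTranspose_apply, h]

theorem Out.hm_hc {T M : Matrix J J ℂ} (h : Hm M) : Hm (hc T M) := by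
  rw [Out.hm_iff] at h ⊢
  rw [hc, Matrix.conjTranspose_mul, Matrix.conjTranspose_mul, Matrix.conjTranspose_conjTranspose,
    h, Matrix.mul_assoc]

theorem AdH.hc {r : ℕ} {θ : ℝ} {A0 : Matrix J J ℂ} {A : Fin r → Matrix J J ℂ}
    (h : AdH θ A0 A) (T : Matrix J J ℂ) : AdH θ (hc T A0) fun k => HZ.hc T (A k) := by
  refine ⟨Out.hm_hc h.herm0, fun k => Out.hm_hc (h.herm k), fun x => ?_, fun x => ?_⟩
  · rw [hq, Out.hf_hc]
    exact h.nonneg _
  · simp only [hq, Out.hf_hc]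
    exact h.bd _

theorem Out.Mk_hc {p r : ℕ} (A0 : Fin p → Matrix J J ℂ) (A : Fin p → Fin r → Matrix J J ℂ)
    (T : Matrix J J ℂ) :
    Mk (fun s => hc T (A0 s)) (fun s k => hc T (A s k)) =
      fun a => T.conjTranspose * Mk A0 A a * T := by
  funext a
  obtain ⟨s, a⟩ := a
  cases a with
  | none =>
    show Complex.I • hc T (A0 s) = T.conjTranspose * (Complex.I • A0 s) * T
    rw [hc, Matrix.mul_smul, Matrix.smul_mul]
  | some k => rfl

theorem Out.hf_diag (d : J → ℂ) (x : J → ℂ) :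
    hf (Matrix.diagonal d) x = ∑ i, d i * (Complex.normSq (x i) : ℂ) := by
  unfold hf
  refine Finset.sum_congr rfl fun i _ => ?_
  rw [Finset.sum_eq_single i]
  · rw [Matrix.diagonal_apply_eq, Complex.normSq_eq_conj_mul_self]
  · intro j _ hj
    rw [Matrix.diagonal_apply_ne _ (Ne.symm hj), zero_mul]
  · intro h
    exact absurd (Finset.mem_univ _) h

theorem Out.hi_diag (x : J → ℝ) (y : J → ℂ) :
    hi (Matrix.diagonal fun j => (x j : ℂ) + Complex.I) y = nn y := by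
  rw [hi, Out.hf_diag, nn, Complex.im_sum]
  refine Finset.sum_congr rfl fun i _ => ?_
  simp

theorem Out.nn_pos {x : J → ℂ} (hx : x ≠ 0) : 0 < nn x := by
  obtain ⟨i, hi⟩ := Function.ne_iff.1 hx
  refine Finset.sum_pos' (fun j _ => Complex.normSq_nonneg _) ⟨i, Finset.mem_univ i, ?_⟩
  exact Complex.normSq_pos.2 hi

end

theorem Out.hf_sub {n : ℕ} (M : Matrix (Fin (n + 1)) (Fin (n + 1)) ℂ) (j : Fin (n + 1))
    (x : Fin n → ℂ) :
    hf (M.submatrix j.succAbove j.succAbove) x = hf M (j.insertNth 0 x) := by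
  unfold hf
  rw [Fin.sum_univ_succAbove _ j]
  simp only [Fin.sum_univ_succAbove _ j, Fin.insertNth_apply_same, map_zero, zero_mul, mul_zero,
    Finset.sum_const_zero, zero_add, Fin.insertNth_apply_succAbove, Matrix.submatrix_apply]

theorem AdH.sub {n r : ℕ} {θ : ℝ} {A0 : Matrix (Fin (n + 1)) (Fin (n + 1)) ℂ}
    {A : Fin r → Matrix (Fin (n + 1)) (Fin (n + 1)) ℂ} (h : AdH θ A0 A) (j : Fin (n + 1)) :
    AdH θ (A0.submatrix j.succAbove j.succAbove) fun k =>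
      (A k).submatrix j.succAbove j.succAbove := by
  refine ⟨fun a b => h.herm0 _ _, fun k a b => h.herm k _ _, fun x => ?_, fun x => ?_⟩
  · rw [hq, Out.hf_sub]
    exact h.nonneg _
  · simp only [hq, Out.hf_sub]
    exact h.bd _

theorem Out.zero_to_Zer (hS : ∀ n : ℕ, SimulStm (Fin n)) {n p r : ℕ} {θ : ℝ}
    {A0 : Fin p → Matrix (Fin n) (Fin n) ℂ}
    {A : Fin p → Fin r → Matrix (Fin n) (Fin n) ℂ} (hA : ∀ s, AdH θ (A0 s) (A s))
    (Y : Matrix (Fin n) (Fin n) ℂ)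
    (hp : ∀ x : Fin n → ℂ, x ≠ 0 → 0 < hi Y x)
    (h0 : f (Mk A0 A) Y = 0) :
    ∃ T : Matrix (Fin n) (Fin n) ℂ, (∀ x, hi (hc T Y) x = nn x) ∧
      ∃ w ∈ Zer n p r θ, ∀ s, Matrix.of (w.1 s) = hc T (A0 s) := by
  obtain ⟨T, x, -, hX⟩ := hS n Y hp
  refine ⟨T, fun y => ?_, ⟨⟨fun s i j => hc T (A0 s) i j, fun s k i j => hc T (A s k) i j,
    fun j => Real.pi / 2 - Real.arctan (x j)⟩, ⟨?_, ?_, ?_⟩, ?_⟩⟩
  · rw [hX, Out.hi_diag]
  · intro s
    exact (hA s).hc T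
  · intro i
    have h1 := Real.arctan_lt_pi_div_two (x i)
    have h2 := Real.neg_pi_div_two_lt_arctan (x i)
    constructor
    · show 0 ≤ Real.pi / 2 - Real.arctan (x i)
      linarith
    · show Real.pi / 2 - Real.arctan (x i) ≤ Real.pi
      linarith
  · have hs : ∀ i, Real.sin (Real.pi / 2 - Real.arctan (x i)) ≠ 0 := by
      intro i
      rw [Real.sin_pi_div_two_sub]
      exact (Real.cos_arctan_pos (x i)).ne'
    show FF (Mk (fun s => hc T (A0 s)) fun s k => hc T (A s k))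
      (fun i => Complex.exp (Complex.I * ((Real.pi / 2 - Real.arctan (x i) : ℝ) : ℂ)))
      (fun i => Real.sin (Real.pi / 2 - Real.arctan (x i))) = 0
    rw [FF_eq _ _ _ hs]
    have e : (fun i => Complex.exp (Complex.I * ((Real.pi / 2 - Real.arctan (x i) : ℝ) : ℂ)) /
        (Real.sin (Real.pi / 2 - Real.arctan (x i)) : ℂ)) = fun i => (x i : ℂ) + Complex.I := by
      funext i
      rw [Out.ang _ (hs i), Real.sin_pi_div_two_sub, Real.cos_pi_div_two_sub,
        ← Real.tan_eq_sin_div_cos, Real.tan_arctan]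
    rw [e, ← hX, Out.Mk_hc, hc, f_cong, h0, mul_zero, mul_zero]
  · intro s
    ext i j
    rfl

/-- the statement of the induction -/
def Out.P (p r : ℕ) (θ : ℝ) (n : ℕ) : Prop :=
  NVn n p r θ ∧ ∀ (A0 : Fin p → Matrix (Fin n) (Fin n) ℂ)
    (A : Fin p → Fin r → Matrix (Fin n) (Fin n) ℂ), (∀ s, AdH θ (A0 s) (A s)) →
    ∀ φ : Fin n → ℝ, (∀ i, φ i ∈ Set.Icc 0 Real.pi) →
      FF (Mk A0 A) (fun i => Complex.exp (Complex.I * (φ i : ℂ))) (fun i => Real.sin (φ i)) ≠ 0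

theorem Out.P_zero (p r : ℕ) (θ : ℝ) : Out.P p r θ 0 := by
  constructor
  · intro A0 A _ Y _
    rw [f, Matrix.det_isEmpty, E_one]
    exact one_ne_zero
  · intro A0 A _ φ _
    rw [FF, Matrix.det_isEmpty, E_one]
    exact one_ne_zero

theorem Out.Mk_sub {p r n : ℕ} (A0 : Fin p → Matrix (Fin (n + 1)) (Fin (n + 1)) ℂ)
    (A : Fin p → Fin r → Matrix (Fin (n + 1)) (Fin (n + 1)) ℂ) (j : Fin (n + 1)) :
    (fun k => (Mk A0 A k).submatrix j.succAbove j.succAbove) =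
      Mk (fun s => (A0 s).submatrix j.succAbove j.succAbove)
        (fun s k => (A s k).submatrix j.succAbove j.succAbove) := by
  funext a
  obtain ⟨s, a⟩ := a
  cases a with
  | none => rfl
  | some k => rfl

theorem Out.deg {p r : ℕ} {θ : ℝ} {n : ℕ} (hP : Out.P p r θ n)
    (A0 : Fin p → Matrix (Fin (n + 1)) (Fin (n + 1)) ℂ)
    (A : Fin p → Fin r → Matrix (Fin (n + 1)) (Fin (n + 1)) ℂ)
    (hA : ∀ s, AdH θ (A0 s) (A s)) (φ : Fin (n + 1) → ℝ) (hφ : ∀ i, φ i ∈ Set.Icc 0 Real.pi)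
    (j : Fin (n + 1)) (hj : Real.sin (φ j) = 0) :
    FF (Mk A0 A) (fun i => Complex.exp (Complex.I * (φ i : ℂ))) (fun i => Real.sin (φ i)) ≠ 0 := by
  rw [FF_succ (Mk A0 A) _ _ j hj, Out.Mk_sub]
  refine mul_ne_zero (Complex.exp_ne_zero _) ?_
  exact hP.2 _ _ (fun s => (hA s).sub j) (φ ∘ j.succAbove) fun i => hφ _

theorem Out.nv {p r : ℕ} {θ : ℝ} {n : ℕ} (hS : ∀ n : ℕ, SimulStm (Fin n))
    (hD : ∀ n : ℕ, DecrStm (Fin n)) (hCpt : CptStm) (hN : NondegStm) (hC : ContraStm)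
    (hθ0 : 0 ≤ θ) (hθ : θ < 1) (hP : Out.P p r θ n) : NVn (n + 1) p r θ := by
  intro A0 A hA Y hp h0
  obtain ⟨-, -, w, hw, -⟩ := Out.zero_to_Zer hS hA Y hp h0
  obtain ⟨z, hz, hmin⟩ := hCpt (n + 1) p r θ hθ0 hθ ⟨w, hw⟩
  obtain ⟨hB, hφ, hFz⟩ := hz
  have hs : ∀ i, Real.sin (z.2.2 i) ≠ 0 := by
    intro i hi
    exact Out.deg hP _ _ hB _ hφ i hi hFz
  have h1 : FF (Mk (fun s => Matrix.of (z.1 s)) fun s k => Matrix.of (z.2.1 s k))
      (fun i => Complex.exp (Complex.I * (z.2.2 i : ℂ))) (fun i => Real.sin (z.2.2 i)) = 0 := hFz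
  rw [FF_eq _ _ _ hs] at h1
  have hpr : (∏ i, (Real.sin (z.2.2 i) : ℂ)) ≠ 0 :=
    Finset.prod_ne_zero_iff.2 fun i _ => by exact_mod_cast hs i
  have h2 := (mul_eq_zero.1 h1).resolve_left hpr
  have e : (fun i => Complex.exp (Complex.I * (z.2.2 i : ℂ)) / (Real.sin (z.2.2 i) : ℂ)) =
      fun i => ((Real.cos (z.2.2 i) / Real.sin (z.2.2 i) : ℝ) : ℂ) + Complex.I := by
    funext i
    exact Out.ang _ (hs i)
  rw [e] at h2
  refine hC n p r θ hθ0 hθ _ _ hB ?_ (hN n p r θ hP.1 _ _ hB) _ h2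
  intro Y' Q _ hQ hQY hpos hf
  have hp' : ∀ x : Fin (n + 1) → ℂ, x ≠ 0 → 0 < hi Y' x := by
    intro x hx
    have := Out.nn_pos hx
    have := hQY x
    have := hQ x
    linarith
  obtain ⟨T, hT, w', hw', he⟩ := Out.zero_to_Zer hS hB Y' hp' hf
  have h3 := hmin w' hw'
  simp only [he] at h3
  exact absurd (hD (n + 1) p _ Y' Q T (fun s => (hB s).herm0) (fun s => (hB s).nonneg) hQ hQY hT
    hpos) (not_lt.2 h3)

theorem Out.all {p r : ℕ} {θ : ℝ} (hS : ∀ n : ℕ, SimulStm (Fin n))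
    (hD : ∀ n : ℕ, DecrStm (Fin n)) (hCpt : CptStm) (hN : NondegStm) (hC : ContraStm)
    (hθ0 : 0 ≤ θ) (hθ : θ < 1) (n : ℕ) : Out.P p r θ n := by
  induction n with
  | zero => exact Out.P_zero p r θ
  | succ n ih =>
    have hnv := Out.nv hS hD hCpt hN hC hθ0 hθ ih
    refine ⟨hnv, fun A0 A hA φ hφ => ?_⟩
    by_cases hj : ∃ j, Real.sin (φ j) = 0
    · obtain ⟨j, hj⟩ := hj
      exact Out.deg ih A0 A hA φ hφ j hj
    · push Not at hj
      rw [FF_eq _ _ _ hj]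
      refine mul_ne_zero (Finset.prod_ne_zero_iff.2 fun i _ => by exact_mod_cast hj i) ?_
      have e : (fun i => Complex.exp (Complex.I * (φ i : ℂ)) / (Real.sin (φ i) : ℂ)) =
          fun i => ((Real.cos (φ i) / Real.sin (φ i) : ℝ) : ℂ) + Complex.I := by
        funext i
        exact Out.ang _ (hj i)
      rw [e]
      refine hnv A0 A hA _ fun x hx => ?_
      rw [Out.hi_diag]
      exact Out.nn_pos hx

/-- H5 -/
theorem outer : OuterStm := by
  intro hS hD hCpt hN hC n p r θ hθ0 hθ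
  exact (Out.all hS hD hCpt hN hC hθ0 hθ n).1

end Pool.Agent.Helper27.HZ
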