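import Pool.Agent.Helper27.HZ.Stm
import Pool.Agent.Helper27.HY.Wick

/-!
# The Wick formula for the expectation of the determinant, general version
-/

set_option autoImplicit false

open scoped BigOperators
open MvPolynomial

namespace Pool.Agent.Helper27.HZ

open Pool.Agent.Helper27.HY (Wick_leib Wick_dbl Wick_dbl_sum Wick_sign_sq Wick_dbl_comp Wick_pos
  Wick_pos_insert Wick_pos_mem Wick_G Wick_G_card)

section forms

variable {J : Type} [Fintype J] [DecidableEq J] {κ : Type} [Fintype κ] [DecidableEq κ]

/-- the covariance -/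
noncomputable def Wick_cov (M : κ → Matrix J J ℂ) (i j k l : J) : ℂ := ∑ a, M a i j * M a k l

theorem Wick_E (M : κ → Matrix J J ℂ) (i j : J) (P : S κ) :
    E (GG M i j * P) = ∑ a, M a i j * E (pderiv a P) := by
  rw [GG, Finset.sum_mul, map_sum]
  refine Finset.sum_congr rfl fun a _ => ?_
  rw [mul_assoc, E_C_mul, stein]

theorem Wick_pd (M : κ → Matrix J J ℂ) (k l : J) (a : κ) :
    pderiv a (GG M k l) = C (M a k l) := by
  rw [GG, map_sum]
  rw [Finset.sum_eq_single a]
  · rw [pderiv_C_mul, pderiv_X_self, mul_one]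
  · intro b _ hb
    rw [pderiv_C_mul, pderiv_X_of_ne hb, mul_zero]
  · intro h
    exact absurd (Finset.mem_univ a) h

theorem Wick_E_prod {ι : Type} [DecidableEq ι] (M : κ → Matrix J J ℂ)
    (i j : J) (R : Finset ι) (p q : ι → J) :
    E (GG M i j * ∏ x ∈ R, GG M (p x) (q x)) =
      ∑ y ∈ R, Wick_cov M i j (p y) (q y) *
        E (∏ x ∈ R.erase y, GG M (p x) (q x)) := by
  rw [Wick_E]
  have h : ∀ a : κ, M a i j *
      E (pderiv a (∏ x ∈ R, GG M (p x) (q x))) =
      ∑ y ∈ R, M a i j * M a (p y) (q y) *
        E (∏ x ∈ R.erase y, GG M (p x) (q x)) := by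
    intro a
    rw [Wick_leib, map_sum, Finset.mul_sum]
    refine Finset.sum_congr rfl fun y _ => ?_
    rw [Wick_pd, mul_comm (∏ x ∈ R.erase y, GG M (p x) (q x)), E_C_mul]
    ring
  rw [Finset.sum_congr rfl fun a _ => h a, Finset.sum_comm]
  refine Finset.sum_congr rfl fun y _ => ?_
  rw [Wick_cov, Finset.sum_mul]

/-- the determinant as a double sum -/
theorem Wick_det (N : Matrix J J (S κ)) :
    Wick_dbl (fun σ τ => E (∏ x, N (σ x) (τ x))) =
      (Nat.factorial (Fintype.card J) : ℂ) * E N.det := by
  unfold Wick_dbl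
  rw [Finset.sum_comm]
  have h : ∀ τ : Equiv.Perm J, ∑ σ : Equiv.Perm J,
      ((Equiv.Perm.sign σ : ℤ) : ℂ) * ((Equiv.Perm.sign τ : ℤ) : ℂ) *
        E (∏ x, N (σ x) (τ x)) = E N.det := by
    intro τ
    rw [Matrix.det_apply', map_sum, ← Equiv.sum_comp (Equiv.mulRight τ)]
    refine Finset.sum_congr rfl fun σ _ => ?_
    have h1 : ∏ x, N ((Equiv.mulRight τ σ) x) (τ x) = ∏ x, N (σ x) x := by
      rw [← Equiv.prod_comp τ (fun x => N (σ x) x)]
      rfl
    rw [h1]
    have h2 : (((Equiv.Perm.sign σ : ℤ) : S κ)) = C ((Equiv.Perm.sign σ : ℤ) : ℂ) := by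
      simp
    rw [h2, E_C_mul]
    simp only [Equiv.coe_mulRight, Equiv.Perm.sign_mul, Units.val_mul, Int.cast_mul]
    have := Wick_sign_sq τ
    linear_combination ((Equiv.Perm.sign σ : ℤ) : ℂ) * E (∏ x, N (σ x) x) * this
  rw [Finset.sum_congr rfl fun τ _ => h τ, Finset.sum_const, Finset.card_univ,
    Fintype.card_perm, nsmul_eq_mul]

end forms

section blocks

variable {m : ℕ} {κ : Type} [Fintype κ] [DecidableEq κ]
    (M : κ → Matrix (Fin m × Bool) (Fin m × Bool) ℂ)

/-- the sum with the blocks off `T` already paired -/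
noncomputable def Wick_F (T : Finset (Fin m)) : ℂ :=
  Wick_dbl fun σ τ => (∏ b ∈ Tᶜ, Wick_cov M (σ (b, false)) (τ (b, false))
    (σ (b, true)) (τ (b, true))) * E (∏ x ∈ Wick_pos T, GG M (σ x) (τ x))

theorem Wick_step (T : Finset (Fin m)) (b : Fin m) (hb : b ∉ T) :
    Wick_F M (insert b T) = (2 * (T.card : ℂ) + 1) * Wick_F M T := by
  have hbt : (b, true) ∉ Wick_pos T := fun h => hb ((Wick_pos_mem T b true).1 h)
  have hbf : (b, false) ∉ insert (b, true) (Wick_pos T) := by
    simp [Wick_pos_mem, hb]
  have hcard : (insert (b, true) (Wick_pos T)).card = 2 * T.card + 1 := by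
    rw [Finset.card_insert_of_notMem hbt, Wick_pos, Finset.card_product, Finset.card_univ,
      Fintype.card_bool]
    ring
  have h1 : Wick_F M (insert b T) = ∑ y ∈ insert (b, true) (Wick_pos T), Wick_dbl fun σ τ =>
      (∏ c ∈ (insert b T)ᶜ, Wick_cov M (σ (c, false)) (τ (c, false))
        (σ (c, true)) (τ (c, true))) * (Wick_cov M (σ (b, false)) (τ (b, false)) (σ y) (τ y) *
        E (∏ x ∈ (insert (b, true) (Wick_pos T)).erase y, GG M (σ x) (τ x))) := by
    rw [← Wick_dbl_sum, Wick_F]
    congr 1
    funext σ τ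
    rw [Wick_pos_insert, Finset.prod_insert hbf, Wick_E_prod, Finset.mul_sum]
  have h2 : ∀ y ∈ insert (b, true) (Wick_pos T), (Wick_dbl fun σ τ =>
      (∏ c ∈ (insert b T)ᶜ, Wick_cov M (σ (c, false)) (τ (c, false))
        (σ (c, true)) (τ (c, true))) * (Wick_cov M (σ (b, false)) (τ (b, false)) (σ y) (τ y) *
        E (∏ x ∈ (insert (b, true) (Wick_pos T)).erase y, GG M (σ x) (τ x)))) =
      Wick_F M T := by
    intro y hy
    rw [Wick_dbl_comp (Equiv.swap (b, true) y), Wick_F]
    congr 1
    funext σ τ
    have hyf : y ≠ (b, false) := fun h => hbf (h ▸ hy)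
    have e1 : Equiv.swap (b, true) y (b, false) = (b, false) :=
      Equiv.swap_apply_of_ne_of_ne (by simp) (Ne.symm hyf)
    have e2 : Equiv.swap (b, true) y y = (b, true) := Equiv.swap_apply_right _ _
    have e3 : ∀ c ∈ (insert b T)ᶜ, ∀ z : Bool, Equiv.swap (b, true) y (c, z) = (c, z) := by
      intro c hc z
      rw [Finset.mem_compl, Finset.mem_insert, not_or] at hc
      refine Equiv.swap_apply_of_ne_of_ne ?_ ?_
      · intro h
        exact hc.1 (congrArg Prod.fst h)
      · rintro rfl
        rw [Finset.mem_insert, Wick_pos_mem] at hy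
        rcases hy with hy | hy
        · exact hc.1 (congrArg Prod.fst hy)
        · exact hc.2 hy
    have e4 : ∏ x ∈ (insert (b, true) (Wick_pos T)).erase y,
        GG M ((σ * Equiv.swap (b, true) y) x) ((τ * Equiv.swap (b, true) y) x) =
        ∏ x ∈ Wick_pos T, GG M (σ x) (τ x) := by
      have hmap : Wick_pos T = ((insert (b, true) (Wick_pos T)).erase y).map
          (Equiv.swap (b, true) y).toEmbedding := by
        ext x
        simp only [Finset.mem_map_equiv, Finset.mem_erase, Finset.mem_insert,
          Equiv.symm_swap]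
        constructor
        · intro hx
          have hxb : x ≠ (b, true) := fun h => hbt (h ▸ hx)
          refine ⟨?_, ?_⟩
          · intro h
            have : x = (b, true) := by
              have := congrArg (Equiv.swap (b, true) y) h
              rwa [Equiv.swap_apply_self, e2] at this
            exact hxb this
          · by_cases hxy : x = y
            · left
              rw [hxy, e2]
            · right
              rwa [Equiv.swap_apply_of_ne_of_ne hxb hxy]
        · rintro ⟨h3, h4⟩
          by_cases hxb : x = (b, true)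
          · exfalso
            apply h3
            rw [hxb, Equiv.swap_apply_left]
          · by_cases hxy : x = y
            · rw [Finset.mem_insert] at hy
              rcases hy with hy | hy
              · exact absurd (hxy.trans hy) hxb
              · rwa [hxy]
            · rw [Equiv.swap_apply_of_ne_of_ne hxb hxy] at h4
              rcases h4 with h4 | h4
              · exact absurd h4 hxb
              · exact h4
      conv_rhs => rw [hmap]
      rw [Finset.prod_map]
      rfl
    rw [e4]
    have e5 : ∏ c ∈ (insert b T)ᶜ, Wick_cov M ((σ * Equiv.swap (b, true) y) (c, false))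
        ((τ * Equiv.swap (b, true) y) (c, false)) ((σ * Equiv.swap (b, true) y) (c, true))
        ((τ * Equiv.swap (b, true) y) (c, true)) =
        ∏ c ∈ (insert b T)ᶜ, Wick_cov M (σ (c, false)) (τ (c, false))
        (σ (c, true)) (τ (c, true)) := by
      refine Finset.prod_congr rfl fun c hc => ?_
      simp only [Equiv.Perm.mul_apply, e3 c hc]
    rw [e5]
    simp only [Equiv.Perm.mul_apply, e1, e2]
    have e6 : Tᶜ = insert b (insert b T)ᶜ := by
      ext x
      simp only [Finset.mem_compl, Finset.mem_insert, not_or]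
      constructor
      · intro hx
        by_cases hxb : x = b
        · exact Or.inl hxb
        · exact Or.inr ⟨hxb, hx⟩
      · rintro (rfl | hx)
        · exact hb
        · exact hx.2
    rw [e6, Finset.prod_insert (by simp)]
    ring
  rw [h1, Finset.sum_congr rfl h2, Finset.sum_const, hcard, nsmul_eq_mul]
  push_cast
  ring

theorem Wick_F_card (T : Finset (Fin m)) :
    Wick_F M T = (∏ j ∈ Finset.range T.card, (2 * (j : ℂ) + 1)) * Wick_F M ∅ := by
  induction T using Finset.induction_on with
  | empty => simp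
  | insert b T hb ih =>
    rw [Wick_step M T b hb, ih, Finset.card_insert_of_notMem hb, Finset.prod_range_succ]
    ring

end blocks

/-- H6 -/
theorem wick : WickStm := by
  intro m
  refine ⟨(∏ j ∈ Finset.range m, (2 * (j : ℝ) + 1)) / (Nat.factorial (2 * m) * 2 ^ m), ?_, ?_⟩
  · have : 0 < ∏ j ∈ Finset.range m, (2 * (j : ℝ) + 1) :=
      Finset.prod_pos fun j _ => by positivity
    positivity
  intro κ _ _ M
  -- the full sum
  have h1 := Wick_F_card M Finset.univ
  rw [Finset.card_univ, Fintype.card_fin] at h1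
  have h2 : Wick_F M Finset.univ = (Nat.factorial (2 * m) : ℂ) * E (GG M).det := by
    have h3 := Wick_det (GG M)
    rw [Fintype.card_prod, Fintype.card_fin, Fintype.card_bool, mul_comm m 2] at h3
    rw [← h3, Wick_F]
    congr 1
    funext σ τ
    rw [Finset.compl_univ, Finset.prod_empty, one_mul]
    have hp : Wick_pos (Finset.univ : Finset (Fin m)) = Finset.univ := Finset.univ_product_univ
    rw [hp]
  have h4 : Wick_F M ∅ = Wick_G (fun i j k l => Wick_cov M i j k l) ∅ := by
    rw [Wick_F, Wick_G]
    unfold Wick_dbl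
    refine Finset.sum_congr rfl fun σ _ => ?_
    refine Finset.sum_congr rfl fun τ _ => ?_
    have h5 : E (∏ x ∈ Wick_pos (∅ : Finset (Fin m)), GG M (σ x) (τ x)) = 1 := by
      rw [show Wick_pos (∅ : Finset (Fin m)) = ∅ by simp [Wick_pos], Finset.prod_empty, E_one]
    beta_reduce
    rw [h5]
    simp only [Finset.prod_empty]
    ring
  have h6 := Wick_G_card (fun i j k l : Fin m × Bool => Wick_cov M i j k l) Finset.univ
  rw [Finset.card_univ, Fintype.card_fin] at h6
  have h7 : Wick_G (fun i j k l : Fin m × Bool => Wick_cov M i j k l) Finset.univ =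
      gbC (fun i k j l => ∑ a, (M a i j * M a k l - M a k j * M a i l)) := by
    rw [Wick_G, Wick_dbl, gbC]
    refine Finset.sum_congr rfl fun σ _ => ?_
    refine Finset.sum_congr rfl fun τ _ => ?_
    rw [Finset.compl_univ, Finset.prod_empty, mul_one]
    congr 1
    refine Finset.prod_congr rfl fun b _ => ?_
    rw [Finset.sum_sub_distrib]
    rfl
  rw [h2, h4] at h1
  rw [h7] at h6
  have hf : (Nat.factorial (2 * m) : ℂ) ≠ 0 := by
    exact_mod_cast Nat.factorial_ne_zero _
  have h8 : E (GG M).det = ((∏ j ∈ Finset.range m, (2 * (j : ℂ) + 1)) *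
      Wick_G (fun i j k l => Wick_cov M i j k l) ∅) / (Nat.factorial (2 * m) : ℂ) := by
    rw [eq_div_iff hf, ← h1, mul_comm]
  rw [h8, h6]
  push_cast
  field_simp

end Pool.Agent.Helper27.HZ
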