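import Pool.Agent.Helper27.HZ.Contra
import Pool.Agent.Helper27.HZ.Mat
import Pool.Agent.Helper27.HZ.Outer
import Pool.Agent.Helper27.HZ.Wick
import Pool.Agent.Helper27.HZ.Avg
import Pool.Agent.Helper20.HZ.Cpt
import Pool.Agent.Helper48.HZ.Nondeg
import Pool.Agent.Helper64.HZ.Skew
import Pool.Agent.Hx18.HZ.Sign

/-!
# The nonvanishing theorem and the sign
-/

set_option autoImplicit false

namespace Pool.Agent.Helper27.HZ

/-- nonvanishing -/
theorem nonvanish : NonvanishStm :=
  outer (fun n => simul (Fin n)) (fun n => decr (Fin n)) Pool.Agent.Helper20.HZ.cpt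
    Pool.Agent.Helper48.HZ.nondeg (contra fun n => psd (Fin n))

/-- the sign of the Gauss-Bonnet sum -/
theorem sign_rep (m : ℕ) (R : Fin m × Bool → Fin m × Bool → Fin m × Bool → Fin m × Bool → ℝ)
    (h : RepG R) : 0 ≤ Pool.Agent.Helper27.HY.gbJ R :=
  Pool.Agent.Hx18.HZ.sign wick Pool.Agent.Helper64.HZ.skew avg nonvanish m R h

end Pool.Agent.Helper27.HZ
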