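import Pool.Agent.Helper27.HZ.Base
import Pool.Agent.Helper27.HY.Stm

/-!
# Statements of the pieces: Hermitian matrices and sums of Lorentzian forms
-/

set_option autoImplicit false
set_option linter.unusedSectionVars false

open scoped BigOperators
open MvPolynomial

namespace Pool.Agent.Helper27.HZ

open Pool.Agent.Helper27.HY (Bf gbJ)

section
variable {J : Type} [Fintype J] [DecidableEq J]

/-- Hermitian matrices -/
def Hm (M : Matrix J J ℂ) : Prop := ∀ i j, M j i = (starRingEnd ℂ) (M i j)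

/-- the sesquilinear form of a matrix on the diagonal -/
noncomputable def hf (M : Matrix J J ℂ) (x : J → ℂ) : ℂ :=
  ∑ i, ∑ j, M i j * ((starRingEnd ℂ) (x i) * x j)

/-- its real part -/
noncomputable def hq (M : Matrix J J ℂ) (x : J → ℂ) : ℝ := (hf M x).re

/-- its imaginary part -/
noncomputable def hi (M : Matrix J J ℂ) (x : J → ℂ) : ℝ := (hf M x).im

/-- squared norm -/
noncomputable def nn (x : J → ℂ) : ℝ := ∑ i, Complex.normSq (x i)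

/-- pairing of Hermitian matrices -/
noncomputable def hpr (M N : Matrix J J ℂ) : ℝ := (∑ i, ∑ j, M i j * (starRingEnd ℂ) (N i j)).re

/-- the congruent matrix -/
noncomputable def hc (T M : Matrix J J ℂ) : Matrix J J ℂ := T.conjTranspose * M * T

/-- admissible families -/
structure AdH {r : ℕ} (θ : ℝ) (A0 : Matrix J J ℂ) (A : Fin r → Matrix J J ℂ) : Prop where
  herm0 : Hm A0
  herm : ∀ k, Hm (A k)
  nonneg : ∀ x, 0 ≤ hq A0 x
  bd : ∀ x, ∑ k, hq (A k) x ^ 2 ≤ θ ^ 2 * hq A0 x ^ 2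

/-- the coefficient matrices of the Gaussian variables: `p` groups, with `1 + r` variables each -/
noncomputable def Mk {p r : ℕ} (A0 : Fin p → Matrix J J ℂ) (A : Fin p → Fin r → Matrix J J ℂ) :
    Fin p × Option (Fin r) → Matrix J J ℂ
  | (s, none) => Complex.I • A0 s
  | (s, some k) => A s k

/-! ### H1: matrices -/

/-- H1a: decomposition of positive semidefinite matrices -/
def PsdStm (J : Type) [Fintype J] [DecidableEq J] : Prop :=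
  ∀ M : Matrix J J ℂ, Hm M → (∀ x, 0 ≤ hq M x) →
    ∃ (m : ℕ) (a : Fin m → J → ℂ), ∀ i j, M i j = ∑ k, a k i * (starRingEnd ℂ) (a k j)

/-- H1b: simultaneous diagonalisation by a congruence -/
def SimulStm (J : Type) [Fintype J] [DecidableEq J] : Prop :=
  ∀ Y : Matrix J J ℂ, (∀ x, x ≠ 0 → 0 < hi Y x) →
    ∃ (T : Matrix J J ℂ) (x : J → ℝ), T.det ≠ 0 ∧
      hc T Y = Matrix.diagonal fun j => (x j : ℂ) + Complex.I

/-- H1c: the trace decreases -/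
def DecrStm (J : Type) [Fintype J] [DecidableEq J] : Prop :=
  ∀ (p : ℕ) (A0 : Fin p → Matrix J J ℂ) (Y Q T : Matrix J J ℂ), (∀ s, Hm (A0 s)) →
    (∀ s x, 0 ≤ hq (A0 s) x) → (∀ x, 0 ≤ hq Q x) → (∀ x, nn x + hq Q x ≤ hi Y x) →
    (∀ x, hi (hc T Y) x = nn x) → 0 < ∑ s, hpr Q (A0 s) →
    ∑ s, (hc T (A0 s)).trace.re < ∑ s, (A0 s).trace.re

end

/-! ### H2: compactness -/

/-- the parameter space -/
abbrev ZZ (n p r : ℕ) : Type :=
  (Fin p → Fin n → Fin n → ℂ) × (Fin p → Fin r → Fin n → Fin n → ℂ) × (Fin n → ℝ)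

/-- the functional in terms of angles -/
noncomputable def Fz {n p r : ℕ} (z : ZZ n p r) : ℂ :=
  FF (Mk (fun s => Matrix.of (z.1 s)) fun s k => Matrix.of (z.2.1 s k))
    (fun i => Complex.exp (Complex.I * (z.2.2 i : ℂ))) (fun i => Real.sin (z.2.2 i))

/-- the zeros -/
def Zer (n p r : ℕ) (θ : ℝ) : Set (ZZ n p r) :=
  {z | (∀ s, AdH θ (Matrix.of (z.1 s)) (fun k => Matrix.of (z.2.1 s k))) ∧
    (∀ i, z.2.2 i ∈ Set.Icc 0 Real.pi) ∧ Fz z = 0}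

/-- H2: there is a zero of minimal trace -/
def CptStm : Prop :=
  ∀ (n p r : ℕ) (θ : ℝ), 0 ≤ θ → θ < 1 → (Zer n p r θ).Nonempty →
    ∃ z ∈ Zer n p r θ, ∀ w ∈ Zer n p r θ,
      ∑ s, (Matrix.of (z.1 s)).trace.re ≤ ∑ s, (Matrix.of (w.1 s)).trace.re

/-! ### the induction -/

/-- nonvanishing in dimension `n` -/
def NVn (n p r : ℕ) (θ : ℝ) : Prop :=
  ∀ (A0 : Fin p → Matrix (Fin n) (Fin n) ℂ) (A : Fin p → Fin r → Matrix (Fin n) (Fin n) ℂ),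
    (∀ s, AdH θ (A0 s) (A s)) →
    ∀ Y : Matrix (Fin n) (Fin n) ℂ, (∀ x, x ≠ 0 → 0 < hi Y x) → f (Mk A0 A) Y ≠ 0

/-- H3: nonvanishing of the derivative in rank one directions -/
def NondegStm : Prop :=
  ∀ (n p r : ℕ) (θ : ℝ), NVn n p r θ →
    ∀ (A0 : Fin p → Matrix (Fin (n + 1)) (Fin (n + 1)) ℂ)
      (A : Fin p → Fin r → Matrix (Fin (n + 1)) (Fin (n + 1)) ℂ), (∀ s, AdH θ (A0 s) (A s)) →
    ∀ Y : Matrix (Fin (n + 1)) (Fin (n + 1)) ℂ, (∀ x, x ≠ 0 → 0 < hi Y x) →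
      ∀ e : Fin (n + 1) → ℂ, e ≠ 0 → D1 (Mk A0 A) Y (Matrix.vecMulVec e (star e)) ≠ 0

/-- H4: the extremal case -/
def ContraStm : Prop :=
  ∀ (n p r : ℕ) (θ : ℝ), 0 ≤ θ → θ < 1 →
    ∀ (A0 : Fin p → Matrix (Fin (n + 1)) (Fin (n + 1)) ℂ)
      (A : Fin p → Fin r → Matrix (Fin (n + 1)) (Fin (n + 1)) ℂ), (∀ s, AdH θ (A0 s) (A s)) →
      (∀ Y Q : Matrix (Fin (n + 1)) (Fin (n + 1)) ℂ, Hm Q → (∀ x, 0 ≤ hq Q x) →
        (∀ x, nn x + hq Q x ≤ hi Y x) → 0 < ∑ s, hpr Q (A0 s) → f (Mk A0 A) Y ≠ 0) →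
      (∀ Y : Matrix (Fin (n + 1)) (Fin (n + 1)) ℂ, (∀ x, x ≠ 0 → 0 < hi Y x) →
        ∀ e : Fin (n + 1) → ℂ, e ≠ 0 → D1 (Mk A0 A) Y (Matrix.vecMulVec e (star e)) ≠ 0) →
      ∀ x : Fin (n + 1) → ℝ,
        f (Mk A0 A) (Matrix.diagonal fun j => (x j : ℂ) + Complex.I) ≠ 0

/-- the nonvanishing theorem -/
def NonvanishStm : Prop := ∀ (n p r : ℕ) (θ : ℝ), 0 ≤ θ → θ < 1 → NVn n p r θ

/-- H5: the induction -/
def OuterStm : Prop :=
  (∀ n : ℕ, SimulStm (Fin n)) → (∀ n : ℕ, DecrStm (Fin n)) → CptStm → NondegStm → ContraStm →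
    NonvanishStm

/-! ### the sign -/

/-- the complex version of the Gauss-Bonnet sum -/
def gbC {m : ℕ} (Q : Fin m × Bool → Fin m × Bool → Fin m × Bool → Fin m × Bool → ℂ) : ℂ :=
  ∑ σ : Equiv.Perm (Fin m × Bool), ∑ τ : Equiv.Perm (Fin m × Bool),
    ((Equiv.Perm.sign σ : ℤ) : ℂ) * ((Equiv.Perm.sign τ : ℤ) : ℂ) *
      ∏ b : Fin m, Q (σ (b, false)) (σ (b, true)) (τ (b, false)) (τ (b, true))

/-- H6: the Wick formula -/
def WickStm : Prop :=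
  ∀ m : ℕ, ∃ c : ℝ, 0 < c ∧ ∀ (ι : Type) [Fintype ι] [DecidableEq ι]
    (M : ι → Matrix (Fin m × Bool) (Fin m × Bool) ℂ),
    E (GG M).det = (c : ℂ) * gbC fun i k j l => ∑ a, (M a i j * M a k l - M a k j * M a i l)

/-- H7: positivity for a fixed skew matrix `Ω`; `A0 s`, `A s k` real symmetric. -/
def SkewStm : Prop :=
  NonvanishStm → ∀ (m p r : ℕ) (A0 : Fin p → Matrix (Fin m × Bool) (Fin m × Bool) ℝ)
    (A : Fin p → Fin r → Matrix (Fin m × Bool) (Fin m × Bool) ℝ),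
    (∀ s i j, A0 s i j = A0 s j i) → (∀ s k i j, A s k i j = A s k j i) →
    (∀ s (x : Fin m × Bool → ℝ), 0 ≤ ∑ i, ∑ j, A0 s i j * (x i * x j)) →
    (∀ s (x : Fin m × Bool → ℝ), ∑ k, (∑ i, ∑ j, A s k i j * (x i * x j)) ^ 2 ≤
      (∑ i, ∑ j, A0 s i j * (x i * x j)) ^ 2) →
    ∀ Ω : Matrix (Fin m × Bool) (Fin m × Bool) ℝ, (∀ i j, Ω j i = - Ω i j) →
      0 ≤ (-1) ^ m * (f (Mk (fun s => (A0 s).map ((↑) : ℝ → ℂ))
        fun s k => (A s k).map ((↑) : ℝ → ℂ)) (Complex.I • Ω.map ((↑) : ℝ → ℂ))).re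

/-- H8: averages over real Gaussian variables -/
def AvgStm : Prop :=
  ∀ (J : Type) [Fintype J] [DecidableEq J] (ι : Type) [Fintype ι] [DecidableEq ι] (q : ℕ)
    (M : ι → Matrix J J ℂ) (N : Fin q → Matrix J J ℂ) (c : ℝ),
    (∀ t : Fin q → ℝ, 0 ≤ c * (f M (∑ j, (t j : ℂ) • N j)).re) →
      0 ≤ c * (E (GG (Sum.elim N M)).det).re

/-- representations of arrays: a sum of Lorentzian forms and a nonnegative form on bivectors -/
def RepG {J : Type} [Fintype J] (R : J → J → J → J → ℝ) : Prop :=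
  ∃ (p r q : ℕ) (A0 : Fin p → Matrix J J ℝ) (A : Fin p → Fin r → Matrix J J ℝ)
    (w : Fin q → Matrix J J ℝ), (∀ s i j, A0 s i j = A0 s j i) ∧
    (∀ s k i j, A s k i j = A s k j i) ∧ (∀ a i j, w a j i = - w a i j) ∧
    (∀ s (x : J → ℝ), 0 ≤ ∑ i, ∑ j, A0 s i j * (x i * x j)) ∧
    (∀ s (x : J → ℝ), ∑ k, (∑ i, ∑ j, A s k i j * (x i * x j)) ^ 2 ≤
      (∑ i, ∑ j, A0 s i j * (x i * x j)) ^ 2) ∧
    ∀ i j k l, R i k j l = ∑ s, (Bf (A0 s) (A s) i j k l - Bf (A0 s) (A s) k j i l) +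
      ∑ a, (w a i j * w a k l - w a k j * w a i l)

/-- H9: the sign -/
def SignStm : Prop :=
  WickStm → SkewStm → AvgStm → NonvanishStm →
    ∀ (m : ℕ) (R : Fin m × Bool → Fin m × Bool → Fin m × Bool → Fin m × Bool → ℝ),
      RepG R → 0 ≤ gbJ R

end Pool.Agent.Helper27.HZ
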