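import Pool.Agent.Helper27.HZ.Stm
import Pool.Agent.Helper27.HY.Stm2
import Pool.Agent.Helper27.HY.Fin

/-!
# Statements of the pieces, second list: closure properties and the final theorems
-/

set_option autoImplicit false
set_option linter.unusedSectionVars false

open scoped BigOperators

namespace Pool.Agent.Helper27.HZ

open Pool.Agent.Helper27.HY (Bf gbJ Cv Bq OneP Kc Rep kind2 OnePos OnePosStrict)
open Pool.Agent.W666.GB MeasureTheory

/-! ### arrays -/

/-- the form on bivectors is nonnegative -/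
def FKPos {J : Type} [Fintype J] (R : J → J → J → J → ℝ) : Prop :=
  ∀ X : J → J → ℝ, (∀ a b, X b a = - X a b) →
    0 ≤ ∑ i, ∑ j, ∑ k, ∑ l, R i j k l * (X i j * X k l)

/-- K1: sums -/
def SumStm : Prop :=
  ∀ (J : Type) [Fintype J] [DecidableEq J] (R R' : J → J → J → J → ℝ), RepG R → RepG R' →
    RepG fun a b c d => R a b c d + R' a b c d

/-- K2: nonnegative curvature operators -/
def FKStm : Prop :=
  ∀ (J : Type) [Fintype J] [DecidableEq J] (R : J → J → J → J → ℝ), Cv R → FKPos R → RepG R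

/-- K3: one Lorentzian form -/
def OneStm : Prop :=
  ∀ (J : Type) [Fintype J] [DecidableEq J] (R : J → J → J → J → ℝ), Rep R → RepG R

/-- K4: restriction to subsets of the indices -/
def RestrStm : Prop :=
  ∀ (J J' : Type) [Fintype J] [DecidableEq J] [Fintype J'] [DecidableEq J'] (ι : J' → J),
    Function.Injective ι → ∀ R : J → J → J → J → ℝ, RepG R →
      RepG fun a b c d => R (ι a) (ι b) (ι c) (ι d)

/-- the theorem for arrays -/
def ArrStm : Prop :=
  ∀ (m : ℕ) (R : Fin m × Bool → Fin m × Bool → Fin m × Bool → Fin m × Bool → ℝ), RepG R →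
    ∀ s : ℝ, 0 ≤ s → gbJ (m := m) (fun a b c d => s * Kc a b c d) ≤
      gbJ (m := m) fun a b c d => R a b c d + s * Kc a b c d

/-! ### tensors -/

section
variable {V : Type*} [NormedAddCommGroup V] [InnerProductSpace ℝ V]

/-- the tensor of constant curvature one -/
noncomputable def unitR (x y z w : V) : ℝ :=
  inner ℝ x z * inner ℝ y w - inner ℝ x w * inner ℝ y z

/-- The curvature operator (on bivectors) is at most `-κ`. -/
def OpLe (R : V → V → V → V → ℝ) (κ : ℝ) : Prop :=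
  ∀ (n : ℕ) (x y : Fin n → V),
    ∑ a, ∑ b, (R (x a) (y a) (x b) (y b) + κ * unitR (x a) (y a) (x b) (y b)) ≤ 0

/-- `R` is the sum of a curvature tensor with curvature operator (on bivectors) at most `-κ` and of
curvature tensors `S s` for which the form of the curvature operator of the second kind has at most one
positive eigenvalue. -/
def Mixed {m : ℕ} (e : OrthonormalBasis (Fin m × Bool) ℝ V) (R : V → V → V → V → ℝ) (κ : ℝ) :
    Prop :=
  ∃ (p : ℕ) (R₀ : V → V → V → V → ℝ) (S : Fin p → V → V → V → V → ℝ),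
    AlgCurv R₀ ∧ OpLe R₀ κ ∧ (∀ s, AlgCurv (S s) ∧ OnePos e (S s) 0) ∧
      ∀ x y z w, R x y z w = R₀ x y z w + ∑ s, S s x y z w

/-- symmetric bilinear forms with values in `W` -/
structure SymMap {W : Type*} [NormedAddCommGroup W] [InnerProductSpace ℝ W] (β : V → V → W) :
    Prop where
  add : ∀ x x' y, β (x + x') y = β x y + β x' y
  smul : ∀ (t : ℝ) (x y : V), β (t • x) y = t • β x y
  symm : ∀ x y, β y x = β x y

/-- the part of the curvature tensor given by the second fundamental form (Gauss equation) -/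
noncomputable def extR {W : Type*} [NormedAddCommGroup W] [InnerProductSpace ℝ W]
    (β : V → V → W) (x y z w : V) : ℝ :=
  inner ℝ (β x z) (β y w) - inner ℝ (β x w) (β y z)

/-- The tensor of a second fundamental form `(b, β)` with values in the Lorentzian space `ℝ ⊕ ℝᴺ` (where
`b` is the component in the negative direction), `N` arbitrary, such that all values `(b(x,x), β(x,x))`
are in the closed future light cone. -/
def Causal (S : V → V → V → V → ℝ) : Prop :=
  ∃ (N : ℕ) (b : V → V → ℝ) (β : V → V → EuclideanSpace ℝ (Fin N)), SymMap b ∧ SymMap β ∧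
    (∀ x, 0 ≤ b x x ∧ ‖β x x‖ ≤ b x x) ∧ ∀ x y z w, S x y z w = extR β x y z w - extR b x y z w

/-- `R` is the sum of a curvature tensor with curvature operator at most `-κ` and of finitely many
tensors of causal second fundamental forms. -/
def CausalSum (R : V → V → V → V → ℝ) (κ : ℝ) : Prop :=
  ∃ (p : ℕ) (R₀ : V → V → V → V → ℝ) (S : Fin p → V → V → V → V → ℝ),
    AlgCurv R₀ ∧ OpLe R₀ κ ∧ (∀ s, Causal (S s)) ∧
      ∀ x y z w, R x y z w = R₀ x y z w + ∑ s, S s x y z w

end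

/-- K5: the first final theorem -/
def FinalA : Prop :=
  (∀ (m : ℕ) (V : Type) [NormedAddCommGroup V] [InnerProductSpace ℝ V]
    (e : OrthonormalBasis (Fin m × Bool) ℝ V) (R : V → V → V → V → ℝ), AlgCurv R →
    (∀ κ : ℝ, 0 ≤ κ → Mixed e R κ → roundGB m κ ≤ (-1) ^ m * gbc e R) ∧
    (∀ κ : ℝ, 0 ≤ κ → OnePos e R κ → Mixed e R κ) ∧
    (OnePosStrict e R → 0 < (-1) ^ m * gbc e R)) ∧
  (∀ (m : ℕ) (M : Type) [MeasurableSpace M] (μ : Measure M) (K : CurvField m M), Integrable K.gb μ →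
    (∀ κ : ℝ, 0 ≤ κ → (∀ p, Mixed (K.e p) (K.R p) κ) →
      ENNReal.ofReal (roundGB m κ) * μ Set.univ ≤ ENNReal.ofReal ((-1) ^ m * ∫ p, K.gb p ∂μ)) ∧
    ((∀ p, Mixed (K.e p) (K.R p) 0) → 0 ≤ (-1) ^ m * ∫ p, K.gb p ∂μ ∧
      (μ {p | OnePosStrict (K.e p) (K.R p)} ≠ 0 → 0 < (-1) ^ m * ∫ p, K.gb p ∂μ)))

/-- K6: the second final theorem -/
def FinalD : Prop :=
  (∀ (m : ℕ) (V : Type) [NormedAddCommGroup V] [InnerProductSpace ℝ V]
    (e : OrthonormalBasis (Fin m × Bool) ℝ V) (R : V → V → V → V → ℝ) (κ : ℝ), 0 ≤ κ →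
    CausalSum R κ → roundGB m κ ≤ (-1) ^ m * gbc e R) ∧
  (∀ (m : ℕ) (V W : Type) [NormedAddCommGroup V] [InnerProductSpace ℝ V]
    [NormedAddCommGroup W] [InnerProductSpace ℝ W] [FiniteDimensional ℝ W]
    (_ : OrthonormalBasis (Fin m × Bool) ℝ V) (R R₁ : V → V → V → V → ℝ) (β : V → V → W)
    (c κ : ℝ), AlgCurv R₁ → OpLe R₁ c → SymMap β → 0 ≤ κ → κ ≤ c →
    (∀ x, ‖β x x‖ ^ 2 ≤ (c - κ) * ‖x‖ ^ 4) →
    (∀ x y z w, R x y z w = R₁ x y z w + extR β x y z w) → CausalSum R κ) ∧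
  (∀ (m : ℕ) (M : Type) [MeasurableSpace M] (μ : Measure M) (K : CurvField m M), Integrable K.gb μ →
    ∀ κ : ℝ, 0 ≤ κ → (∀ p, CausalSum (K.R p) κ) →
      0 ≤ (-1) ^ m * ∫ p, K.gb p ∂μ ∧
      ENNReal.ofReal (roundGB m κ) * μ Set.univ ≤ ENNReal.ofReal ((-1) ^ m * ∫ p, K.gb p ∂μ))

/-- K5 with its inputs -/
def WrapA : Prop :=
  ArrStm → SumStm → FKStm → OneStm → Pool.Agent.Helper27.HY.Decomp2Stm →
    Pool.Agent.Helper27.HY.StrictStm → FinalA

/-- K6 with its inputs -/
def WrapD : Prop := ArrStm → SumStm → FKStm → FinalD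

end Pool.Agent.Helper27.HZ
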